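import Pool.Agent.U498.AC.LocX

/-!
# The smoothed map near a point
-/

set_option autoImplicit false
set_option linter.unusedSectionVars false

open Set Filter Topology Metric Function MeasureTheory
open scoped Manifold ContDiff

noncomputable section

namespace Pool.Agent.U498.AC

open Pool.Agent.Y522 Pool.Agent.U211.BLV
open Pool.Agent.U211.BL hiding Mol LL LL_apply moll_congr moll_const moll_cont moll_conv moll_pos moll_joint moll_null mollS k_smul_integrable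

variable {n m d : ℕ} {X Y : Type} [TopologicalSpace X] [ChartedSpace (E n) X] [T2Space X]
  [IsManifold (𝓡 n) ∞ X] [TopologicalSpace Y] [ChartedSpace (E n) Y] [IsManifold (𝓡 n) ∞ Y]
  [CompactSpace Y]

variable {r₀ : ℝ} (K : Ker m r₀)

/-- the cutoff functions -/
structure Cut (χ : E m → ℝ) : Prop where
  smooth : ContDiff ℝ ∞ χ
  nonneg : ∀ z, 0 ≤ χ z
  le : ∀ z, χ z ≤ 1
  zero : ∀ z, 1 ≤ ‖z‖ → χ z = 0

theorem Cut.rad {χ : E m → ℝ} (h : Cut χ) {δ : ℝ} (hδ : 0 < δ) (hδ1 : δ ≤ 1 / 4) :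
    Rad (fun z => δ * χ z) := by
  refine ⟨contDiff_const.mul h.smooth, fun z => mul_nonneg hδ.le (h.nonneg z), fun z => ?_,
    fun z hz => by rw [h.zero z hz, mul_zero]⟩
  have h1 := h.le z
  have h2 := h.nonneg z
  nlinarith

theorem Cut.lip {χ : E m → ℝ} (h : Cut χ) : ∃ C : ℝ, 0 ≤ C ∧ ∀ z, ‖fderiv ℝ χ z‖ ≤ C := by
  have h1 : HasCompactSupport (fderiv ℝ χ) := by
    apply HasCompactSupport.fderiv
    exact compactSupport_of fun s hs => h.zero s hs.le
  obtain ⟨C, hC⟩ := (h.smooth.continuous_fderiv (by simp)).bounded_above_of_compact_support h1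
  exact ⟨|C|, abs_nonneg _, fun z => (hC z).trans (le_abs_self _)⟩

/-- the choice of the small numbers -/
theorem exists_kap {q mm c τ S₀ D₀ : ℝ} (hτ : S₀ < τ) (h : c * (1 + q * (τ * D₀)) < 1) :
    ∃ κ : ℝ, 0 < κ ∧ κ ≤ 1 / 2 ∧ S₀ + 2 * κ ≤ τ ∧
      c + (q + 2 * mm * κ) * (c * τ) * (D₀ + κ) / (1 - κ) < 1 := by
  have hcont : ContinuousAt (fun κ : ℝ => c + (q + 2 * mm * κ) * (c * τ) * (D₀ + κ) / (1 - κ)) 0 := by
    apply ContinuousAt.add continuousAt_const
    apply ContinuousAt.div (by fun_prop) (by fun_prop)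
    norm_num
  have h0 : ∀ᶠ κ in 𝓝[>] (0 : ℝ), c + (q + 2 * mm * κ) * (c * τ) * (D₀ + κ) / (1 - κ) < 1 := by
    have h1 : ∀ᶠ κ in 𝓝 (0 : ℝ), c + (q + 2 * mm * κ) * (c * τ) * (D₀ + κ) / (1 - κ) < 1 := by
      apply hcont.eventually_lt_const
      have : c + (q + 2 * mm * 0) * (c * τ) * (D₀ + 0) / (1 - 0) = c * (1 + q * (τ * D₀)) := by
        ring
      show c + (q + 2 * mm * 0) * (c * τ) * (D₀ + 0) / (1 - 0) < 1
      rw [this]
      exact h
    exact h1.filter_mono nhdsWithin_le_nhds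
  obtain ⟨κ, ⟨⟨k1, k2⟩, k3⟩, k4⟩ := ((h0.and (small 1 (D := 1 / 2) (by norm_num))).and
    (small 2 (D := τ - S₀) (by linarith))).and self_mem_nhdsWithin |>.exists
  have k5 : 0 < κ := k4
  exact ⟨κ, k5, by linarith, by linarith, k1⟩

/-- **The core statement**: near `A 0` it is enough that the map is close to an affine map at the
scale of the mollification. -/
theorem local_coreX (hr : 0 < r₀) {ι : X → E m} {πM : E m → X} (hTM : Tub n ι πM)
    (hι1 : ∀ x, ‖ι x‖ ≤ 1)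
    {e : Y → E d} {π : E d → Y} (hT : Tub n e π) (hn : ∀ p y, ‖p - e (π p)‖ ≤ ‖p - e y‖)
    {g : X → Y} (hg : Continuous g)
    (hgi : Injective g) {H : E m → E d} (hH : ContinuousOn H (closedBall 0 2))
    (hHn : ∀ x, ∀ᶠ p in 𝓝 (ι x), H p = e (g (πM p))) {χ : E m → ℝ} (hχ : Cut χ)
    {A : E n → X} (hA : Box A) {c₁ τ : ℝ} (hc₁ : 0 ≤ c₁)
    (hτS : ‖fderiv ℝ (tau πM A) (ι (A 0))‖ < τ)
    (hc : c₁ * (1 + Real.sqrt m / r₀ * (τ * ‖fderiv ℝ (fun w => ι (A w)) 0‖)) < 1) :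
    ∃ s : ℝ, 0 < s ∧ s ≤ 1 / 4 ∧ ∀ δ, 0 < δ → δ ≤ s → ∀ y : E n,
      ‖y‖ ≤ s → 0 < χ (ι (A y)) →
      (∃ (a : E d) (L : E n →L[ℝ] E d),
        Apx (fun p => e (g (A p))) c₁ y (τ * (δ * χ (ι (A y)))) a L) →
      LD n (fun x => π (Mol K H (fun z => δ * χ z) (ι x))) (A y) := by
  obtain ⟨q, hq⟩ : ∃ q, q = Real.sqrt m / r₀ := ⟨_, rfl⟩
  have hq0 : 0 ≤ q := by rw [hq]; positivity
  obtain ⟨S₀, hS₀⟩ : ∃ S₀, S₀ = ‖fderiv ℝ (tau πM A) (ι (A 0))‖ := ⟨_, rfl⟩
  obtain ⟨D₀, hD₀⟩ : ∃ D₀, D₀ = ‖fderiv ℝ (fun w => ι (A w)) 0‖ := ⟨_, rfl⟩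
  have hS₀0 : 0 ≤ S₀ := by rw [hS₀]; exact norm_nonneg _
  have hD₀0 : 0 ≤ D₀ := by rw [hD₀]; exact norm_nonneg _
  rw [← hS₀] at hτS
  rw [← hq, ← hD₀] at hc
  have hτ0 : 0 < τ := by linarith
  obtain ⟨κ, hκ0, hκ1, hκτ, hκc⟩ := exists_kap (mm := m) hτS hc
  obtain ⟨θ, hθ⟩ : ∃ θ, θ = (q + 2 * m * κ) * (c₁ * τ) * (D₀ + κ) := ⟨_, rfl⟩
  have hθ0 : 0 ≤ θ := by rw [hθ]; positivity
  rw [← hθ] at hκc
  -- the tolerance of the retraction
  obtain ⟨ξ, ⟨x1, -⟩, hξ⟩ := (((small (2 + c₁ + θ / (1 - κ)) (D := 1 - (c₁ + θ / (1 - κ)))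
    (by linarith)).and (small 1 one_pos)).and self_mem_nhdsWithin).exists
  have hξ0 : 0 < ξ := hξ
  obtain ⟨t, ht0, ht⟩ := PP_unif hT hξ0
  obtain ⟨Cχ, hCχ0, hCχ⟩ := hχ.lip
  obtain ⟨T, Λ, s₁, hTs, hΛ, hs₁, hs₁1, hgeo⟩ := geo hTM hA (F := fun x => e (g x)) (H := H)
    (hHn (A 0)) hκ0
  rw [← hS₀, ← hD₀] at hgeo
  have hei : Injective e := fun a b hab => by
    have := congrArg π hab
    rwa [hT.retr, hT.retr] at this
  -- the map in the box
  obtain ⟨GA, hGA⟩ : ∃ GA : E n → E d, GA = fun p => e (g (A p)) := ⟨_, rfl⟩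
  have hGAe : ∀ p, GA p = e (g (A p)) := fun p => by rw [hGA]
  have hGAc : ContinuousOn GA (closedBall 0 2) := by
    rw [hGA]
    exact (hT.smooth.continuous.comp hg).comp_continuousOn (box_contOn hA)
  have hGAi : InjOn GA (closedBall 0 2) := by
    intro p hp q hq h
    rw [hGAe, hGAe] at h
    exact hA.inj hp hq (hgi (hei h))
  have hGA0 : ContinuousAt GA 0 := hGAc.continuousAt (closedBall_mem_nhds _ (by norm_num))
  obtain ⟨s₂, hs₂, hb⟩ := Metric.continuousAt_iff.1 hGA0 (t / 4) (by positivity)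
  have hb' : ∀ p : E n, ‖p‖ < s₂ → ‖GA p - GA 0‖ < t / 4 := by
    intro p hp
    have := hb (x := p) (by rwa [dist_zero_right])
    rwa [dist_eq_norm] at this
  -- the scale
  obtain ⟨s, ⟨e1, e2, e3, e4, e5, e6, e7⟩, hs⟩ := (((small 1 (D := s₁) hs₁).and
    ((small (τ + 1) (D := s₂) hs₂).and ((small Cχ (D := κ) hκ0).and
      ((small 1 (D := 1 / 4) (by norm_num)).and ((small τ (D := 1) one_pos).and
      ((small Λ (D := κ) hκ0).and (small ((q + 2 * m * κ) * Λ * (D₀ + κ)) (D := κ) hκ0))))))).and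
        self_mem_nhdsWithin).exists
  have hs0 : 0 < s := hs
  rw [mul_one] at e1 e4
  refine ⟨s, hs0, e4.le, fun δ hδ hδs y hy hx => ?_⟩
  rintro ⟨a, L, hap⟩
  have hRad : Rad (fun z => δ * χ z) := hχ.rad hδ (by linarith)
  obtain ⟨c, hc'⟩ : ∃ c : E m → ℝ, c = fun z => δ * χ z := ⟨_, rfl⟩
  have hce : ∀ z, c z = δ * χ z := fun z => by rw [hc']
  rw [← hc'] at hRad ⊢
  obtain ⟨z, hz⟩ : ∃ z, z = ι (A y) := ⟨_, rfl⟩
  rw [← hz] at hx hap
  rw [← hce] at hap
  rw [← hGA] at hap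
  have hcz : 0 < c z := by rw [hce]; exact mul_pos hδ hx
  have hczδ : c z ≤ δ := by
    rw [hce]
    have := hχ.le z
    nlinarith
  have hczs : c z ≤ s := hczδ.trans hδs
  obtain ⟨hg1, hg2, hg3⟩ := hgeo y (by linarith)
  rw [← hz] at hg2
  have hR0 : 0 < τ * c z := by positivity
  have hRs : τ * c z ≤ s * τ := by nlinarith
  have hc1 : ‖fderiv ℝ c z‖ ≤ κ := by
    have h1 : HasFDerivAt c (δ • fderiv ℝ χ z) z := by
      rw [hc']
      exact ((hχ.smooth.differentiable (by simp)).differentiableAt.hasFDerivAt).const_mul δ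
    rw [h1.fderiv, norm_smul, Real.norm_of_nonneg hδ.le]
    calc δ * ‖fderiv ℝ χ z‖ ≤ s * Cχ := mul_le_mul hδs (hCχ z) (norm_nonneg _) hs0.le
      _ ≤ κ := e3.le
  have hHA : ∀ p : E m, ‖p - z‖ ≤ c z → H p = GA (T p) := by
    intro p hp
    have h1 := hg1.eq (p - z) (by linarith)
    rw [← hz, add_sub_cancel] at h1
    rw [h1, hGAe]
  have hquad : ∀ v : E m, ‖v‖ ≤ c z → ‖T (z + v) - y - fderiv ℝ T z v‖ ≤ Λ * ‖v‖ ^ 2 := by
    intro v hv
    rw [hz]
    exact hg1.quad v (by linarith)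
  have hball : ∀ p, ‖p - z‖ ≤ c z → ‖T p - y‖ ≤ τ * c z := by
    intro p hp
    have h2 := hquad (p - z) hp
    rw [add_sub_cancel] at h2
    have h3 : T p - y = (T p - y - fderiv ℝ T z (p - z)) + fderiv ℝ T z (p - z) := by abel
    rw [h3]
    refine (norm_add_le _ _).trans ?_
    have h4 : ‖fderiv ℝ T z (p - z)‖ ≤ (S₀ + κ) * ‖p - z‖ :=
      (fderiv ℝ T z).le_of_opNorm_le hg2 _
    have h5 := norm_nonneg (p - z)
    have h6 : (S₀ + κ) * ‖p - z‖ ≤ (S₀ + κ) * c z := by gcongr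
    have h7 : Λ * ‖p - z‖ ^ 2 ≤ κ * c z := by
      have h8 : Λ * ‖p - z‖ ^ 2 ≤ Λ * (c z * c z) := by
        apply mul_le_mul_of_nonneg_left _ (by linarith)
        rw [sq]
        exact mul_le_mul hp hp h5 hcz.le
      have h9 : Λ * c z ≤ κ := by nlinarith
      nlinarith
    have h8 : (S₀ + 2 * κ) * c z ≤ τ * c z := mul_le_mul_of_nonneg_right hκτ hcz.le
    linarith
  -- closeness
  have hHz : H z = GA y := by
    rw [hHA z (by rw [sub_self, norm_zero]; exact hcz.le), hz, hg1.fix]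
  have hpos2 : ∀ p : E n, ‖p - y‖ ≤ τ * c z → ‖GA p - GA y‖ ≤ t / 2 := by
    intro p hp
    have h1 : ‖p‖ < s₂ := by
      have h2 := norm_add_le (p - y) y
      rw [sub_add_cancel] at h2
      linarith
    have h2 : ‖y‖ < s₂ := by nlinarith
    have h3 := hb' p h1
    have h4 := hb' y h2
    have h5 : GA p - GA y = (GA p - GA 0) - (GA y - GA 0) := by abel
    rw [h5]
    refine (norm_sub_le _ _).trans ?_
    linarith
  have hclose : ‖Mol K H c z - GA y‖ ≤ t / 2 := by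
    rw [← hHz]
    apply mol_close' K hH hRad
    · rw [hz]
      exact (hι1 _).trans (by norm_num)
    · intro p hp
      rw [hHz, hHA p hp]
      exact hpos2 _ (hball p hp)
  rw [hGAe] at hclose
  apply LD_of_box' hA (by linarith)
  show LD n (fun w => π (Mol K H c (ι (A w)))) y
  refine comp_box hT (G := fun w => Mol K H c (ι (A w)))
    (V := (fderiv ℝ (Mol K H c) z).comp (fderiv ℝ (fun w => ι (A w)) y)) ?_ ?_ ?_ ?_
  · -- smoothness
    have h1 : ∀ᶠ w in 𝓝 y, ‖w‖ < 2 := continuous_norm.continuousAt.eventually_lt_const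
      (by linarith)
    have h2 : ∀ᶠ w in 𝓝 y, 0 < c (ι (A w)) := by
      have h3 : ContinuousAt (fun w => c (ι (A w))) y :=
        hRad.smooth.continuous.continuousAt.comp hg1.der.continuousAt
      refine h3.eventually_const_lt ?_
      show 0 < c (ι (A y))
      rw [← hz]
      exact hcz
    filter_upwards [h1, h2] with w hw1 hw2
    have h3 : ContDiffAt ℝ ∞ (Mol K H c) (ι (A w)) :=
      moll_pos K hH hRad.smooth hRad.le (fun z hz => hRad.zero z hz.le) hw2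
    exact ContDiffAt.comp (g := Mol K H c) (f := fun w => ι (A w)) w h3
      (iota_smooth hTM hA w hw1.le)
  · have h3 : ContDiffAt ℝ ∞ (Mol K H c) z :=
      moll_pos K hH hRad.smooth hRad.le (fun z hz => hRad.zero z hz.le) hcz
    have h4 : HasFDerivAt (Mol K H c) (fderiv ℝ (Mol K H c) z) (ι (A y)) := by
      rw [← hz]
      exact (h3.differentiableAt (by simp)).hasFDerivAt
    exact HasFDerivAt.comp (g := Mol K H c) (f := fun w => ι (A w)) y h4 hg1.der
  · have h2 : ∀ᶠ p in 𝓝 (Mol K H c z), ‖p - e (g (A y))‖ < t := by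
      have h3 : Continuous fun p : E d => ‖p - e (g (A y))‖ := by fun_prop
      exact h3.continuousAt.eventually_lt_const (by linarith)
    rw [← hz]
    filter_upwards [h2] with p hp
    exact (ht _ p hp.le).1
  · intro u hu
    rw [← hz]
    have hin : ∀ v : E n, ‖v‖ = 1 → y + (τ * c z) • v ∈ closedBall (0 : E n) 2 := by
      intro v hv
      rw [mem_closedBall_zero_iff]
      refine (norm_add_le _ _).trans ?_
      rw [norm_smul, hv, mul_one, Real.norm_of_nonneg hR0.le]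
      linarith
    have hpos : ∀ v : E n, ‖v‖ = 1 → 0 < ‖L v‖ := by
      intro v hv
      apply hap.pos hR0 hv
      intro h
      have hm2 : y ∈ closedBall (0 : E n) 2 := by rw [mem_closedBall_zero_iff]; linarith
      have h2 := hGAi (hin v hv) hm2 h
      have h3 : (τ * c z) • v = 0 := by
        have := congrArg (fun x => x - y) h2
        simpa using this
      have h4 : ‖(τ * c z) • v‖ = τ * c z := by
        rw [norm_smul, hv, mul_one, Real.norm_of_nonneg hR0.le]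
      rw [h3, norm_zero] at h4
      linarith
    obtain ⟨u'', hu1, hV⟩ := der_nearX (K := K) hr hH hRad hTs hcz hc₁ hc1 hap (by linarith)
      hτ0.le hball hHA hquad hg3 (fun u => by
        rw [hz]
        exact hg1.inv u) hu
    rw [← hq] at hu1 hV
    have hu2 : 1 - κ ≤ ‖u''‖ := by
      have h1 := norm_sub_norm_le u u''
      rw [hu, ← norm_neg (u - u''), neg_sub] at h1
      have h2 : (q + 2 * m * κ) * (Λ * c z) * (D₀ + κ) ≤ κ := by
        calc (q + 2 * m * κ) * (Λ * c z) * (D₀ + κ) ≤ (q + 2 * m * κ) * (Λ * s) * (D₀ + κ) := by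
              gcongr
          _ = s * ((q + 2 * m * κ) * Λ * (D₀ + κ)) := by ring
          _ ≤ κ := e7.le
      linarith
    have hqc := QC_of hT hξ0.le ht (PP_sub_id hT hn) (le_refl t) g (A y)
    have hneg : ∀ v : E n, y - (τ * c z) • v = y + (τ * c z) • (-v) := fun v => by
      rw [smul_neg, sub_eq_add_neg]
    have hfar : ∀ v : E n, ‖v‖ = 1 → ‖e (g (A (y + (τ * c z) • v))) - e (g (A y))‖ ≤ t := by
      intro v hv
      rw [← hGAe, ← hGAe]
      refine (hpos2 _ ?_).trans (by linarith)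
      rw [add_sub_cancel_left, norm_smul, hv, mul_one, Real.norm_of_nonneg hR0.le]
    refine proj_neX (GA := GA) (D := fderiv ℝ (PP e π) (e (g (A y)))) (ε := c₁) (ξ := ξ) (κ := κ)
      (θ := θ) hR0 hu2 (by linarith) hap hpos ?_ (PP_sub_id hT hn _) (PP_le hT hn _)
      ((ht (g (A y)) _ (hclose.trans (by linarith))).2) ?_ hξ0.le ?_
    · intro v hv
      have h1 := hV v hv
      rw [hθ]
      exact h1
    · intro v hv
      rw [hneg, hGAe, hGAe]
      exact hqc.dif (A (y + (τ * c z) • v)) (A (y + (τ * c z) • (-v))) (hfar v hv)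
        (hfar (-v) (by rw [norm_neg]; exact hv))
    · linarith

end Pool.Agent.U498.AC
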