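import Pool.Agent.U211.BLV.Mol
import Pool.Agent.U498.AA.Der

/-!
# The derivative of mollifications with variable radius, values in another Euclidean space

Follows `Pool/Agent/U498/AA/Der.lean`.
-/

set_option autoImplicit false

open Set Filter Topology Metric Function MeasureTheory
open scoped Manifold ContDiff Convolution

noncomputable section

namespace Pool.Agent.U498.AC

open Pool.Agent.Y522 Pool.Agent.U211.BLV
open Pool.Agent.U211.BL hiding Mol LL LL_apply moll_congr moll_const moll_cont moll_conv moll_pos moll_joint moll_null mollS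
open Pool.Agent.U498.AA hiding mol_path mol_compare mol_affine mol_near

variable {n d : ℕ} {r₀ : ℝ} (K : Ker n r₀)

/-- the derivative of the mollification along a line -/
theorem mol_path {G : E n → E d} {c : E n → ℝ} (hG : ContinuousOn G (closedBall 0 2)) (hc : Rad c)
    {z : E n} (hz : 0 < c z) (w : E n) :
    Integrable (fun p => kd K (c z) (fderiv ℝ c z w) w (z - p) •
      (closedBall (0 : E n) 2).indicator G p) ∧
    fderiv ℝ (Mol K G c) z w = ∫ p, kd K (c z) (fderiv ℝ c z w) w (z - p) •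
      (closedBall (0 : E n) 2).indicator G p := by
  obtain ⟨G₁, hG₁⟩ : ∃ G₁, G₁ = (closedBall (0 : E n) 2).indicator G := ⟨_, rfl⟩
  rw [← hG₁]
  have hint : Integrable G₁ := by
    rw [hG₁, integrable_indicator_iff measurableSet_closedBall]
    exact hG.integrableOn_compact (isCompact_closedBall _ _)
  have hz1 : ‖z‖ < 1 := by
    by_contra h
    rw [hc.zero z (not_lt.1 h)] at hz
    exact lt_irrefl _ hz
  obtain ⟨C, hC0, hk, hg⟩ := exists_kbound K
  obtain ⟨ρ, hρ⟩ : ∃ ρ : ℝ → ℝ, ρ = fun t => c (z + t • w) := ⟨_, rfl⟩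
  obtain ⟨x, hx⟩ : ∃ x : E n → ℝ → E n, x = fun p t => z + t • w - p := ⟨_, rfl⟩
  obtain ⟨ρd, hρd⟩ : ∃ ρd : ℝ → ℝ, ρd = fun t => fderiv ℝ c (z + t • w) w := ⟨_, rfl⟩
  have hline : ∀ t : ℝ, HasDerivAt (fun t : ℝ => z + t • w) w t := by
    intro t
    have h1 : HasDerivAt (fun t : ℝ => t • w) w t := by
      have := (hasDerivAt_id t).smul_const w
      simpa using this
    exact h1.const_add z
  have hρD : ∀ t, HasDerivAt ρ (ρd t) t := by
    intro t
    rw [hρ, hρd]
    have h1 : HasFDerivAt c (fderiv ℝ c (z + t • w)) (z + t • w) :=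
      (hc.smooth.differentiable (by simp)).differentiableAt.hasFDerivAt
    exact h1.comp_hasDerivAt t (hline t)
  have hxD : ∀ p t, HasDerivAt (x p) w t := by
    intro p t
    rw [hx]
    exact (hline t).sub_const p
  have hρc : Continuous ρ := by
    rw [hρ]
    exact hc.smooth.continuous.comp (by fun_prop)
  have hρdc : Continuous ρd := by
    rw [hρd]
    have h1 : Continuous (fderiv ℝ c) := hc.smooth.continuous_fderiv (by simp)
    exact (h1.comp (by fun_prop : Continuous fun t : ℝ => z + t • w)).clm_apply continuous_const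
  have hρ0 : ρ 0 = c z := by rw [hρ]; simp
  have hρd0 : ρd 0 = fderiv ℝ c z w := by rw [hρd]; simp
  have hx0 : ∀ p, x p 0 = z - p := by intro p; rw [hx]; simp
  obtain ⟨W, hW⟩ : ∃ W, W = |fderiv ℝ c z w| + ‖w‖ + 1 := ⟨_, rfl⟩
  have hww : ‖w‖ ≤ W := by rw [hW]; linarith [abs_nonneg (fderiv ℝ c z w)]
  obtain ⟨s, hs⟩ : ∃ s, s = {t : ℝ | c z / 2 < ρ t ∧ |ρd t| < W ∧ ‖z + t • w‖ < 1} := ⟨_, rfl⟩
  have hsn : s ∈ 𝓝 (0 : ℝ) := by
    have h1 : ∀ᶠ t in 𝓝 (0 : ℝ), c z / 2 < ρ t := hρc.continuousAt.eventually_const_lt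
      (by rw [hρ0]; linarith)
    have h2 : ∀ᶠ t in 𝓝 (0 : ℝ), |ρd t| < W := hρdc.abs.continuousAt.eventually_lt_const
      (by
        show |ρd 0| < W
        rw [hρd0, hW]; linarith [norm_nonneg w])
    have h3 : ∀ᶠ t in 𝓝 (0 : ℝ), ‖z + t • w‖ < 1 :=
      (by fun_prop : Continuous fun t : ℝ => ‖z + t • w‖).continuousAt.eventually_lt_const
        (by simpa using hz1)
    rw [hs]
    exact h1.and (h2.and h3)
  have hρs : ∀ t ∈ s, 0 < ρ t := by
    intro t ht
    rw [hs] at ht
    linarith [ht.1]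
  -- the mollification as an integral
  have hM : ∀ t ∈ s, Mol K G c (z + t • w) = ∫ p, gk K (ρ t) (x p t) • G₁ p := by
    intro t ht
    have hz2 : ‖z + t • w‖ < 1 := by rw [hs] at ht; exact ht.2.2
    have h1 := moll_conv K G₁ (z + t • w) (hρs t ht)
    unfold convolution at h1
    simp only [LL_apply] at h1
    rw [hx]
    rw [← h1]
    unfold Mol
    congr 1
    funext s
    by_cases hs : K.k s = 0
    · rw [hs, zero_smul, zero_smul]
    · rw [hG₁, indicator_of_mem]
      · rw [hρ]
      · rw [mem_closedBall_zero_iff]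
        calc ‖z + t • w + ρ t • s‖ ≤ ‖z + t • w‖ + ‖ρ t • s‖ := norm_add_le _ _
          _ = ‖z + t • w‖ + ρ t * ‖s‖ := by rw [norm_smul, Real.norm_of_nonneg (hρs t ht).le]
          _ ≤ 1 + 1 / 4 * 1 := by
              gcongr
              · rw [hρ]
                exact hc.le _
              · exact (K.lt hs).le
          _ ≤ 2 := by norm_num
  have key := hasDerivAt_integral_of_dominated_loc_of_deriv_le (μ := (volume : Measure (E n)))
    (F := fun t p => gk K (ρ t) (x p t) • G₁ p)
    (F' := fun t p => kd K (ρ t) (ρd t) w (x p t) • G₁ p) (x₀ := (0 : ℝ)) (s := s)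
    (bound := fun p => ((c z / 2) ^ (n + 1))⁻¹ * ((n + 2) * C * W) * ‖G₁ p‖) hsn
    (Eventually.of_forall fun t => by
      have : Continuous fun p => gk K (ρ t) (x p t) := by
        rw [hx]
        exact (gk_cont K).comp (by fun_prop)
      exact this.aestronglyMeasurable.smul hint.aestronglyMeasurable)
    (by
      have h1 : Continuous fun p => gk K (ρ 0) (x p 0) := by
        rw [hx]
        exact (gk_cont K).comp (by fun_prop)
      have h2 : ∃ C, ∀ p, ‖gk K (ρ 0) (x p 0)‖ ≤ C := by
        refine ⟨((ρ 0 ^ n)⁻¹) * C, fun p => ?_⟩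
        unfold gk
        rw [norm_mul, Real.norm_of_nonneg (by rw [hρ0]; positivity)]
        exact mul_le_mul_of_nonneg_left (hk _) (by rw [hρ0]; positivity)
      obtain ⟨C', hC'⟩ := h2
      exact hint.bdd_smul C' h1.aestronglyMeasurable (Eventually.of_forall hC'))
    (by
      have : Continuous fun p => kd K (ρ 0) (ρd 0) w (x p 0) := by
        rw [hx]
        exact (kd_cont K).comp (by fun_prop)
      exact this.aestronglyMeasurable.smul hint.aestronglyMeasurable)
    (Eventually.of_forall fun p t ht => by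
      rw [norm_smul]
      apply mul_le_mul_of_nonneg_right _ (norm_nonneg _)
      have h1 := kd_bound K hC0 hk hg (hρs t ht) (W := W) (ρ' := ρd t) (by
        rw [hs] at ht
        exact ht.2.1.le) hww (x p t)
      refine h1.trans ?_
      have hW0 : 0 ≤ W := (norm_nonneg _).trans hww
      apply mul_le_mul_of_nonneg_right _ (by positivity)
      apply inv_anti₀ (by positivity)
      apply pow_le_pow_left₀ (by positivity)
      rw [hs] at ht
      exact ht.1.le)
    (hint.norm.const_mul _)
    (Eventually.of_forall fun p t ht => by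
      exact (gk_hasDerivAt K (hρD t) (hxD p t) (hρs t ht)).smul_const (G₁ p))
  obtain ⟨k1, k2⟩ := key
  simp only [hρ0, hρd0, hx0] at k1 k2
  refine ⟨k1, ?_⟩
  have h1 : HasFDerivAt (Mol K G c) (fderiv ℝ (Mol K G c) z) z :=
    ((moll_pos K hG hc.smooth hc.le (fun z hz => hc.zero z hz.le) hz).differentiableAt
      (by simp)).hasFDerivAt
  have h2 : HasDerivAt (fun t : ℝ => Mol K G c (z + t • w)) (fderiv ℝ (Mol K G c) z w) 0 := by
    have h3 : HasFDerivAt (Mol K G c) (fderiv ℝ (Mol K G c) z) (z + (0 : ℝ) • w) := by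
      rw [zero_smul, add_zero]
      exact h1
    exact h3.comp_hasDerivAt 0 (hline 0)
  have h3 : HasDerivAt (fun t : ℝ => Mol K G c (z + t • w)) (∫ p, kd K (c z) (fderiv ℝ c z w) w
      (z - p) • G₁ p) 0 := by
    refine k2.congr_of_eventuallyEq ?_
    filter_upwards [hsn] with t ht
    exact hM t ht
  exact h2.unique h3

/-- **comparison of two maps** -/
theorem mol_compare : ∃ C : ℝ, 0 ≤ C ∧ ∀ (G G' : E n → E d) (c : E n → ℝ),
    ContinuousOn G (closedBall 0 2) → ContinuousOn G' (closedBall 0 2) → Rad c →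
    ∀ (z : E n) (e : ℝ), 0 < c z → ‖fderiv ℝ c z‖ ≤ 1 → 0 ≤ e →
    (∀ p, ‖p - z‖ ≤ c z → ‖G p - G' p‖ ≤ e) → ∀ w,
    ‖fderiv ℝ (Mol K G c) z w - fderiv ℝ (Mol K G' c) z w‖ ≤ C * (e / c z) * ‖w‖ := by
  obtain ⟨C, hC0, hk, hg⟩ := exists_kbound K
  obtain ⟨v₁, hv₁⟩ : ∃ v₁, v₁ = (volume : Measure (E n)).real (closedBall 0 1) := ⟨_, rfl⟩
  have hv0 : 0 ≤ v₁ := by rw [hv₁]; exact measureReal_nonneg
  refine ⟨(n + 2) * C * v₁, by positivity, ?_⟩
  intro G G' c hG hG' hc z e hz hc1 he h w
  obtain ⟨i1, d1⟩ := mol_path K hG hc hz w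
  obtain ⟨i2, d2⟩ := mol_path K hG' hc hz w
  have hz1 : ‖z‖ < 1 := by
    by_contra h
    rw [hc.zero z (not_lt.1 h)] at hz
    exact lt_irrefl _ hz
  have hcz := hc.le z
  rw [d1, d2, ← integral_sub i1 i2]
  have hW : |fderiv ℝ c z w| ≤ ‖w‖ := by
    have h1 := (fderiv ℝ c z).le_opNorm w
    rw [Real.norm_eq_abs] at h1
    refine h1.trans ?_
    have := mul_le_mul_of_nonneg_right hc1 (norm_nonneg w)
    rwa [one_mul] at this
  have hb : ∀ p, ‖kd K (c z) (fderiv ℝ c z w) w (z - p) • (closedBall (0 : E n) 2).indicator G p -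
      kd K (c z) (fderiv ℝ c z w) w (z - p) • (closedBall (0 : E n) 2).indicator G' p‖ ≤
      (closedBall z (c z)).indicator (fun _ => (c z ^ (n + 1))⁻¹ * ((n + 2) * C * ‖w‖) * e) p := by
    intro p
    by_cases hp : p ∈ closedBall z (c z)
    · rw [indicator_of_mem hp, ← smul_sub, norm_smul]
      rw [mem_closedBall, dist_eq_norm] at hp
      have hp2 : p ∈ closedBall (0 : E n) 2 := by
        rw [mem_closedBall_zero_iff]
        have := norm_add_le (p - z) z
        rw [sub_add_cancel] at this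
        linarith
      rw [indicator_of_mem hp2, indicator_of_mem hp2]
      apply mul_le_mul (kd_bound K hC0 hk hg hz hW le_rfl _) (h p hp) (norm_nonneg _) (by positivity)
    · rw [indicator_of_notMem hp]
      rw [mem_closedBall, dist_eq_norm, not_le, ← norm_neg, neg_sub] at hp
      rw [kd_zero K hz hp]
      simp
  have h3 : Integrable ((closedBall z (c z)).indicator
      (fun _ : E n => (c z ^ (n + 1))⁻¹ * ((n + 2) * C * ‖w‖) * e)) volume := by
    rw [integrable_indicator_iff measurableSet_closedBall]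
    exact integrableOn_const (measure_closedBall_lt_top).ne
  refine (norm_integral_le_of_norm_le h3 (Eventually.of_forall hb)).trans ?_
  rw [integral_indicator_const _ measurableSet_closedBall, smul_eq_mul]
  have h4 : (volume : Measure (E n)).real (closedBall z (c z)) = c z ^ n * v₁ := by
    rw [hv₁]
    unfold Measure.real
    rw [Measure.addHaar_closedBall _ _ hz.le, Measure.addHaar_closedBall _ _ zero_le_one]
    simp [ENNReal.toReal_mul, ENNReal.toReal_ofReal (pow_nonneg hz.le n)]
  rw [h4]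
  apply le_of_eq
  rw [pow_succ]
  field_simp

theorem mol_affine (b : E d) (L : E n →L[ℝ] E d) (c : E n → ℝ) :
    Mol K (fun p => b + L p) c = fun p => b + L p := by
  funext z
  unfold Mol
  have h1 : Integrable fun s => K.k s • s := by
    apply Continuous.integrable_of_hasCompactSupport
    · exact K.cont.smul continuous_id
    · exact (compactSupport_of fun s hs => K.zero s hs.le).smul_right
  have h2 : ∀ s, K.k s • (b + L (z + c z • s)) = K.k s • (b + L z) + (c z) • L (K.k s • s) := by
    intro s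
    rw [map_add, map_smul, map_smul]
    module
  have h3 : Integrable fun s => c z • L (K.k s • s) := (L.integrable_comp h1).smul (c z)
  simp only [h2]
  rw [integral_add (K.integrable.smul_const _) h3,
    integral_smul_const, K.int, one_smul, integral_smul, L.integral_comp_comm h1, int_k_id]
  simp

/-- **the derivative of the mollification of a map close to an affine map** -/
theorem mol_near : ∃ C : ℝ, 0 ≤ C ∧ ∀ (G : E n → E d) (b : E d) (L : E n →L[ℝ] E d) (c : E n → ℝ),
    ContinuousOn G (closedBall 0 2) → Rad c →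
    ∀ (z : E n) (e : ℝ), 0 < c z → ‖fderiv ℝ c z‖ ≤ 1 → 0 ≤ e →
    (∀ p, ‖p - z‖ ≤ c z → ‖G p - (b + L p)‖ ≤ e) → ∀ w,
    ‖fderiv ℝ (Mol K G c) z w - L w‖ ≤ C * (e / c z) * ‖w‖ := by
  obtain ⟨C, hC0, hC⟩ := mol_compare K
  refine ⟨C, hC0, fun G b L c hG hc z e hz hc1 he h w => ?_⟩
  have h1 := hC G (fun p => b + L p) c hG (by fun_prop) hc z e hz hc1 he h w
  rw [mol_affine] at h1
  have h2 : HasFDerivAt (fun p : E n => b + L p) L z := L.hasFDerivAt.const_add b
  rwa [h2.fderiv] at h1

end Pool.Agent.U498.AC
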