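import Pool.Agent.U498.AC.Der

/-!
# Explicit constant for the derivative of mollifications
-/

set_option autoImplicit false

open Set Filter Topology Metric Function MeasureTheory
open scoped Manifold ContDiff Convolution

noncomputable section

namespace Pool.Agent.U498.AC

open Pool.Agent.Y522 Pool.Agent.U211.BLV
open Pool.Agent.U211.BL hiding Mol LL LL_apply moll_congr moll_const moll_cont moll_conv moll_pos moll_joint moll_null mollS
open Pool.Agent.U498.AA hiding mol_path mol_compare mol_affine mol_near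

variable {n d : ℕ} {r₀ : ℝ} (K : Ker n r₀)

theorem int_abs_le' (hr : 0 < r₀) (w : E n) :
    ∫ s, K.g s * |inner ℝ s w| ≤ Real.sqrt n / r₀ * ‖w‖ := by
  by_cases hw : w = 0
  · subst hw
    simp
  · have hn : ‖w‖ ≠ 0 := norm_ne_zero_iff.2 hw
    have h1 := K.int_abs_le hr (w := ‖w‖⁻¹ • w)
      (by rw [norm_smul, norm_inv, norm_norm, inv_mul_cancel₀ hn])
    have h2 : ∀ s : E n, K.g s * |inner ℝ s w| = ‖w‖ * (K.g s * |inner ℝ s (‖w‖⁻¹ • w)|) := by
      intro s
      rw [inner_smul_right, abs_mul, abs_inv, abs_norm]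
      field_simp
    simp only [h2]
    rw [integral_const_mul, mul_comm]
    exact mul_le_mul_of_nonneg_right h1 (norm_nonneg _)

theorem kd_int (hr : 0 < r₀) {ρ ρ' : ℝ} {w : E n} (hρ : 0 < ρ) (z : E n) :
    Integrable (fun p => |kd K ρ ρ' w (z - p)|) ∧
    ∫ p, |kd K ρ ρ' w (z - p)| ≤ ρ⁻¹ * (Real.sqrt n / r₀ * ‖w‖ + 2 * n * |ρ'|) := by
  obtain ⟨h, hh⟩ : ∃ h : E n → ℝ, h = fun q => -(n * ρ' * K.k q) -
    K.g q * (inner ℝ q w - ρ' * ‖q‖ ^ 2) := ⟨_, rfl⟩
  have hkd : ∀ x, kd K ρ ρ' w x = (ρ ^ (n + 1))⁻¹ * h (ρ⁻¹ • x) := by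
    intro x
    rw [hh]
    rfl
  have hcont : Continuous (kd K ρ ρ' w) := kd_cont K
  have hcs : HasCompactSupport (kd K ρ ρ' w) := by
    apply HasCompactSupport.of_support_subset_isCompact (isCompact_closedBall (0 : E n) ρ)
    intro s hs
    rw [mem_closedBall_zero_iff]
    by_contra h1
    exact hs (kd_zero K hρ (not_le.1 h1))
  have hi : Integrable (kd K ρ ρ' w) := hcont.integrable_of_hasCompactSupport hcs
  have hi' : Integrable fun x => |kd K ρ ρ' w x| := hi.abs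
  refine ⟨hi'.comp_sub_left z, ?_⟩
  rw [integral_sub_left_eq_self (fun x => |kd K ρ ρ' w x|) volume z]
  have h1 : ∀ x, |kd K ρ ρ' w x| = (ρ ^ (n + 1))⁻¹ * |h (ρ⁻¹ • x)| := by
    intro x
    rw [hkd, abs_mul, abs_of_nonneg (by positivity : 0 ≤ (ρ ^ (n + 1))⁻¹)]
  simp only [h1]
  rw [integral_const_mul, Measure.integral_comp_inv_smul_of_nonneg volume (fun x => |h x|) hρ.le,
    finrank_euclideanSpace, Fintype.card_fin, smul_eq_mul]
  have h2 : (ρ ^ (n + 1))⁻¹ * (ρ ^ n * ∫ x, |h x|) = ρ⁻¹ * ∫ x, |h x| := by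
    rw [pow_succ]
    field_simp
  rw [h2]
  apply mul_le_mul_of_nonneg_left _ (by positivity)
  have i1 : Integrable fun s => K.g s * |(inner ℝ s w : ℝ)| := K.g_mul_integrable (by fun_prop)
  have i2 : Integrable fun s : E n => K.g s * ‖s‖ ^ 2 := K.g_mul_integrable (by fun_prop)
  have i3 : Integrable fun s => (n * |ρ'|) * K.k s := K.integrable.const_mul _
  have i4 : Integrable fun s : E n => |ρ'| * (K.g s * ‖s‖ ^ 2) := i2.const_mul _
  have hle : ∀ q, |h q| ≤ ((n * |ρ'|) * K.k q + K.g q * |inner ℝ q w|) +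
      |ρ'| * (K.g q * ‖q‖ ^ 2) := by
    intro q
    rw [hh]
    simp only
    have a1 : |(-(n * ρ' * K.k q) : ℝ)| = (n * |ρ'|) * K.k q := by
      rw [abs_neg, abs_mul, abs_mul, Nat.abs_cast, abs_of_nonneg (K.nonneg q)]
    have a2 : |K.g q * (inner ℝ q w - ρ' * ‖q‖ ^ 2)| ≤ K.g q * |inner ℝ q w| +
        |ρ'| * (K.g q * ‖q‖ ^ 2) := by
      rw [abs_mul, abs_of_nonneg (K.gnonneg q)]
      have a3 : |inner ℝ q w - ρ' * ‖q‖ ^ 2| ≤ |inner ℝ q w| + |ρ'| * ‖q‖ ^ 2 := by
        refine (abs_sub _ _).trans ?_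
        rw [abs_mul, abs_of_nonneg (by positivity : 0 ≤ ‖q‖ ^ 2)]
      have a4 := mul_le_mul_of_nonneg_left a3 (K.gnonneg q)
      linarith
    have a3 := abs_sub (-(n * ρ' * K.k q)) (K.g q * (inner ℝ q w - ρ' * ‖q‖ ^ 2))
    linarith
  have hih : Integrable fun x => |h x| := by
    apply Integrable.mono' ((i3.add i1).add i4)
    · rw [hh]
      have h1 := K.cont
      have h2 := K.gcont
      have : Continuous fun q : E n => |(-(n * ρ' * K.k q) - K.g q * (inner ℝ q w - ρ' * ‖q‖ ^ 2) : ℝ)| := by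
        fun_prop
      exact this.aestronglyMeasurable
    · apply Eventually.of_forall
      intro q
      rw [Real.norm_eq_abs, abs_abs]
      exact hle q
  calc ∫ x, |h x| ≤ ∫ q, (((n * |ρ'|) * K.k q + K.g q * |inner ℝ q w|) +
        |ρ'| * (K.g q * ‖q‖ ^ 2)) := integral_mono hih ((i3.add i1).add i4) hle
    _ = (n * |ρ'| + ∫ q, K.g q * |inner ℝ q w|) + |ρ'| * n := by
        have i31 : Integrable fun q => (n * |ρ'|) * K.k q + K.g q * |(inner ℝ q w : ℝ)| := i3.add i1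
        rw [integral_add i31 i4, integral_add i3 i1, integral_const_mul, K.int, mul_one,
          integral_const_mul, K.int_norm_sq]
    _ ≤ (n * |ρ'| + Real.sqrt n / r₀ * ‖w‖) + |ρ'| * n := by
        gcongr
        exact int_abs_le' K hr w
    _ = _ := by ring

/-- **comparison of two maps**, explicit constant -/
theorem mol_compareX (hr : 0 < r₀) {G G' : E n → E d} {c : E n → ℝ}
    (hG : ContinuousOn G (closedBall 0 2)) (hG' : ContinuousOn G' (closedBall 0 2)) (hc : Rad c)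
    {z : E n} {e β : ℝ} (hz : 0 < c z) (hβ : ‖fderiv ℝ c z‖ ≤ β) (he : 0 ≤ e)
    (h : ∀ p, ‖p - z‖ ≤ c z → ‖G p - G' p‖ ≤ e) (w : E n) :
    ‖fderiv ℝ (Mol K G c) z w - fderiv ℝ (Mol K G' c) z w‖ ≤
      (Real.sqrt n / r₀ + 2 * n * β) * (e / c z) * ‖w‖ := by
  obtain ⟨i1, d1⟩ := mol_path K hG hc hz w
  obtain ⟨i2, d2⟩ := mol_path K hG' hc hz w
  have hz1 : ‖z‖ < 1 := by
    by_contra h
    rw [hc.zero z (not_lt.1 h)] at hz
    exact lt_irrefl _ hz
  have hcz := hc.le z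
  obtain ⟨j1, j2⟩ := kd_int K hr (ρ' := fderiv ℝ c z w) (w := w) hz z
  rw [d1, d2, ← integral_sub i1 i2]
  have hW : |fderiv ℝ c z w| ≤ β * ‖w‖ := by
    have h1 := (fderiv ℝ c z).le_of_opNorm_le hβ w
    rwa [Real.norm_eq_abs] at h1
  have hb : ∀ p, ‖kd K (c z) (fderiv ℝ c z w) w (z - p) • (closedBall (0 : E n) 2).indicator G p -
      kd K (c z) (fderiv ℝ c z w) w (z - p) • (closedBall (0 : E n) 2).indicator G' p‖ ≤
      |kd K (c z) (fderiv ℝ c z w) w (z - p)| * e := by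
    intro p
    rw [← smul_sub, norm_smul, Real.norm_eq_abs]
    by_cases hp : p ∈ closedBall z (c z)
    · rw [mem_closedBall, dist_eq_norm] at hp
      have hp2 : p ∈ closedBall (0 : E n) 2 := by
        rw [mem_closedBall_zero_iff]
        have := norm_add_le (p - z) z
        rw [sub_add_cancel] at this
        linarith
      rw [indicator_of_mem hp2, indicator_of_mem hp2]
      exact mul_le_mul_of_nonneg_left (h p hp) (abs_nonneg _)
    · rw [mem_closedBall, dist_eq_norm, not_le, ← norm_neg, neg_sub] at hp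
      rw [kd_zero K hz hp]
      simp
  refine (norm_integral_le_of_norm_le (j1.mul_const e) (Eventually.of_forall hb)).trans ?_
  rw [integral_mul_const]
  have h3 : (c z)⁻¹ * (Real.sqrt n / r₀ * ‖w‖ + 2 * n * |fderiv ℝ c z w|) ≤
      (c z)⁻¹ * (Real.sqrt n / r₀ * ‖w‖ + 2 * n * (β * ‖w‖)) := by
    gcongr
  calc (∫ p, |kd K (c z) (fderiv ℝ c z w) w (z - p)|) * e
      ≤ ((c z)⁻¹ * (Real.sqrt n / r₀ * ‖w‖ + 2 * n * (β * ‖w‖))) * e :=
        mul_le_mul_of_nonneg_right (j2.trans h3) he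
    _ = _ := by ring

end Pool.Agent.U498.AC
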