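import Pool.Agent.U211.BLV.Ret

/-!
# The nearest point retraction: its derivative is an orthogonal projection
-/

set_option autoImplicit false
set_option linter.unusedSectionVars false

open Set Filter Topology Metric Function
open scoped Manifold ContDiff

noncomputable section

namespace Pool.Agent.U498.AC

open Pool.Agent.Y522 Pool.Agent.U211.BL Pool.Agent.U211.BLV

variable {n d : ℕ} {Y : Type} [TopologicalSpace Y] [ChartedSpace (E n) Y]
  [IsManifold (𝓡 n) ∞ Y] [CompactSpace Y] [T2Space Y] [Nonempty Y]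

/-- **Nearest point retraction** (the proof of `exists_tub`, with the nearest point property). -/
theorem exists_tub_near (e : Y → E d) (he : ContMDiff (𝓡 n) (𝓡 d) ∞ e) (hinj : Injective e)
    (himm : ∀ (y : Y) (v : E n),
      fderiv ℝ (fun t => e ((chartAt (E n) y).symm t)) (chartAt (E n) y y) v = 0 → v = 0) :
    ∃ π : E d → Y, Tub n e π ∧ ∀ p y, ‖p - e (π p)‖ ≤ ‖p - e y‖ := by
  have hmin : ∀ p : E d, ∃ y : Y, ∀ y', ‖p - e y‖ ≤ ‖p - e y'‖ := by
    intro p
    obtain ⟨y, -, hy⟩ := isCompact_univ.exists_isMinOn (f := fun y => ‖p - e y‖)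
      (univ_nonempty (α := Y)) (by
        exact (continuous_const.sub he.continuous).norm.continuousOn)
    exact ⟨y, fun y' => hy (mem_univ y')⟩
  choose π hπ using hmin
  have hretr : ∀ y, π (e y) = y := by
    intro y
    apply hinj
    have h1 := hπ (e y) y
    rw [sub_self, norm_zero] at h1
    have h2 := norm_eq_zero.1 (le_antisymm h1 (norm_nonneg _))
    exact (sub_eq_zero.1 h2).symm
  have hemb : IsClosedEmbedding e := he.continuous.isClosedEmbedding hinj
  have hcont : ∀ y, ContinuousAt π (e y) := by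
    intro y
    rw [ContinuousAt, hretr, hemb.isInducing.tendsto_nhds_iff]
    rw [tendsto_iff_norm_sub_tendsto_zero]
    have h1 : Tendsto (fun p => 2 * ‖p - e y‖) (𝓝 (e y)) (𝓝 0) := by
      have : Continuous fun p : E d => 2 * ‖p - e y‖ := by fun_prop
      have h2 := this.tendsto (e y)
      simpa using h2
    refine squeeze_zero (fun _ => norm_nonneg _) (fun p => ?_) h1
    have h2 : e (π p) - e y = (p - e y) - (p - e (π p)) := by abel
    simp only [comp_apply]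
    rw [h2]
    have h3 := norm_sub_le (p - e y) (p - e (π p))
    have h4 := hπ p y
    linarith
  refine ⟨π, ⟨he, hretr, fun y₀ => ?_⟩, hπ⟩
  obtain ⟨φ, hφd⟩ : ∃ φ : Y → E n, φ = chartAt (E n) y₀ := ⟨_, rfl⟩
  obtain ⟨A, hAd⟩ : ∃ A : E n → Y, A = (chartAt (E n) y₀).symm := ⟨_, rfl⟩
  have hφ : LD n φ y₀ := by
    rw [hφd]
    exact chart_LD y₀
  have hA1 : LD n A (φ y₀) := by
    rw [hφd, hAd]
    exact chart_symm_LD y₀
  have hA2 : A (φ y₀) = y₀ := by
    rw [hφd, hAd]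
    exact (chartAt (E n) y₀).left_inv (mem_chart_source (E n) y₀)
  have hA3 : ∀ᶠ y in 𝓝 y₀, A (φ y) = y := by
    filter_upwards [(chartAt (E n) y₀).open_source.mem_nhds (mem_chart_source (E n) y₀)] with y hy
    rw [hφd, hAd]
    exact (chartAt (E n) y₀).left_inv hy
  obtain ⟨h, hh⟩ : ∃ h : E n → E d, h = fun t => e (A t) := ⟨_, rfl⟩
  have hhs : ∀ᶠ t in 𝓝 (φ y₀), ContDiffAt ℝ ∞ h t := by
    filter_upwards [hA1.eventually] with t ht
    rw [hh]
    exact contMDiffAt_iff_contDiffAt.1 ((he _).comp t ht.contMDiffAt)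
  have hhi : ∀ s, fderiv ℝ h (φ y₀) s = 0 → s = 0 := by
    intro s hs
    apply himm y₀ s
    rw [hh, hφd, hAd] at hs
    exact hs
  obtain ⟨T, hT1, hT2⟩ := exists_T hhs hhi
  have hh0 : h (φ y₀) = e y₀ := by
    rw [hh]
    simp only
    rw [hA2]
  rw [hh0] at hT1 hT2
  have hφc : ContinuousAt (fun p => φ (π p)) (e y₀) := by
    refine ContinuousAt.comp (g := φ) ?_ (hcont y₀)
    rw [hretr]
    exact hφ.continuousAt
  have hpair : Tendsto (fun p => (p, φ (π p))) (𝓝 (e y₀)) (𝓝 (e y₀, φ y₀)) := by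
    have h1 : Tendsto (fun p => φ (π p)) (𝓝 (e y₀)) (𝓝 (φ (π (e y₀)))) := hφc
    rw [hretr] at h1
    exact tendsto_id.prodMk_nhds h1
  have hπc : Tendsto π (𝓝 (e y₀)) (𝓝 y₀) := by
    have h1 : Tendsto π (𝓝 (e y₀)) (𝓝 (π (e y₀))) := hcont y₀
    rwa [hretr] at h1
  have hφt : Tendsto (fun p => φ (π p)) (𝓝 (e y₀)) (𝓝 (φ y₀)) := hφ.continuousAt.tendsto.comp hπc
  have hkey : ∀ᶠ p in 𝓝 (e y₀), π p = A (T p) := by
    filter_upwards [hpair.eventually hT2, hπc.eventually hA3, hφt.eventually hhs] with p h1 h2 h3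
    rw [← h2]
    congr 1
    apply h1
    apply grd_zero
    intro s
    simp only
    have hd : HasFDerivAt h (fderiv ℝ h (φ (π p))) (φ (π p)) :=
      (h3.differentiableAt (by simp)).hasFDerivAt
    have hd2 : HasFDerivAt (fun t => p - h t) (-(fderiv ℝ h (φ (π p)))) (φ (π p)) :=
      hd.const_sub p
    have hsq := hd2.norm_sq
    have hmin : IsLocalMin (fun t => ‖p - h t‖ ^ 2) (φ (π p)) := by
      apply Eventually.of_forall
      intro t
      have h4 : ‖p - h (φ (π p))‖ ≤ ‖p - h t‖ := by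
        rw [hh]
        simp only
        rw [h2]
        exact hπ p (A t)
      simp only
      gcongr
    have h5 := hmin.hasFDerivAt_eq_zero hsq
    have h6 := congrArg (fun L : E n →L[ℝ] ℝ => L s) h5
    simp at h6
    rw [inner_sub_left]
    linarith
  have hAT : ∀ᶠ p in 𝓝 (e y₀), ContMDiffAt (𝓡 d) (𝓡 n) ∞ (fun p => A (T p)) p := by
    have hTc : Tendsto T (𝓝 (e y₀)) (𝓝 (φ y₀)) := by
      have h1 : Tendsto T (𝓝 (e y₀)) (𝓝 (T (e y₀))) := hT1.self_of_nhds.continuousAt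
      have h2 : φ y₀ = T (e y₀) := by
        apply hT2.self_of_nhds
        apply grd_zero
        intro s
        simp [hh0]
      rwa [← h2] at h1
    filter_upwards [hT1, hTc.eventually hA1.eventually] with p h1 h2
    exact ContMDiffAt.comp (I' := 𝓡 n) (g := A) (f := T) p h2.contMDiffAt
      (contMDiffAt_iff_contDiffAt.2 h1)
  filter_upwards [hkey.eventually_nhds, hAT] with p h1 h2
  exact h2.congr_of_eventuallyEq h1



omit [IsManifold (𝓡 n) ∞ Y] [CompactSpace Y] [T2Space Y] [Nonempty Y] in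
theorem PP_hasFDerivAt {e : Y → E d} {π : E d → Y} (hT : Tub n e π) (y : Y) :
    HasFDerivAt (PP e π) (fderiv ℝ (PP e π) (e y)) (e y) :=
  ((PP_smooth hT (hT.near y).self_of_nhds).differentiableAt (by simp)).hasFDerivAt

omit [IsManifold (𝓡 n) ∞ Y] [CompactSpace Y] [T2Space Y] [Nonempty Y] in
theorem PP_sub_id {e : Y → E d} {π : E d → Y} (hT : Tub n e π)
    (hn : ∀ p y, ‖p - e (π p)‖ ≤ ‖p - e y‖) (y : Y) :
    ‖fderiv ℝ (PP e π) (e y) - ContinuousLinearMap.id ℝ (E d)‖ ≤ 1 := by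
  have h1 : HasFDerivAt (fun p => PP e π p - p)
      (fderiv ℝ (PP e π) (e y) - ContinuousLinearMap.id ℝ (E d)) (e y) :=
    (PP_hasFDerivAt hT y).sub (hasFDerivAt_id _)
  apply h1.le_of_lip' zero_le_one
  apply Eventually.of_forall
  intro p
  rw [PP_fix hT, sub_self, sub_zero, one_mul, ← norm_neg, neg_sub]
  exact hn p y

omit [IsManifold (𝓡 n) ∞ Y] [CompactSpace Y] [T2Space Y] [Nonempty Y] in
theorem PP_idem {e : Y → E d} {π : E d → Y} (hT : Tub n e π) (y : Y) (v : E d) :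
    fderiv ℝ (PP e π) (e y) (fderiv ℝ (PP e π) (e y) v) = fderiv ℝ (PP e π) (e y) v := by
  have h1 := PP_hasFDerivAt hT y
  have h2 : HasFDerivAt (PP e π) (fderiv ℝ (PP e π) (e y)) (PP e π (e y)) := by
    rw [PP_fix hT]
    exact h1
  have h3 := h2.comp (e y) h1
  have h4 : PP e π ∘ PP e π = PP e π := by
    funext p
    exact PP_fix hT (π p)
  rw [h4] at h3
  have h5 := congrArg (fun T : E d →L[ℝ] E d => T v) (h3.unique h1)
  exact h5

omit [IsManifold (𝓡 n) ∞ Y] [CompactSpace Y] [T2Space Y] [Nonempty Y] in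
/-- the derivative of the nearest point retraction does not increase lengths -/
theorem PP_le {e : Y → E d} {π : E d → Y} (hT : Tub n e π)
    (hn : ∀ p y, ‖p - e (π p)‖ ≤ ‖p - e y‖) (y : Y) (v : E d) :
    ‖fderiv ℝ (PP e π) (e y) v‖ ≤ ‖v‖ := by
  obtain ⟨D, hD⟩ : ∃ D, D = fderiv ℝ (PP e π) (e y) := ⟨_, rfl⟩
  have h1 := PP_sub_id hT hn y
  have h2 := PP_idem hT y
  rw [← hD] at h1 h2 ⊢
  obtain ⟨x, hx⟩ : ∃ x, x = D v := ⟨_, rfl⟩
  obtain ⟨w, hw⟩ : ∃ w, w = v - x := ⟨_, rfl⟩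
  have hDx : D x = x := by rw [hx, h2]
  have hDw : D w = 0 := by rw [hw, map_sub, hDx, ← hx, sub_self]
  have key : ∀ t : ℝ, ‖w‖ ^ 2 ≤ ‖w + t • x‖ ^ 2 := by
    intro t
    apply pow_le_pow_left₀ (norm_nonneg _)
    have h3 : (D - ContinuousLinearMap.id ℝ (E d)) (w + t • x) = -w := by
      simp [hDw, hDx]
    have h4 := (D - ContinuousLinearMap.id ℝ (E d)).le_of_opNorm_le h1 (w + t • x)
    rw [h3, norm_neg, one_mul] at h4
    exact h4
  have h0 : (inner ℝ w x : ℝ) = 0 := by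
    by_cases hx0 : x = 0
    · rw [hx0, inner_zero_right]
    · have hxn : 0 < ‖x‖ ^ 2 := by positivity
      have h3 := key (-(inner ℝ w x) / ‖x‖ ^ 2)
      rw [norm_add_sq_real, inner_smul_right, norm_smul, mul_pow, Real.norm_eq_abs, sq_abs] at h3
      have h4 : 2 * (-(inner ℝ w x) / ‖x‖ ^ 2 * inner ℝ w x) +
          (-(inner ℝ w x) / ‖x‖ ^ 2) ^ 2 * ‖x‖ ^ 2 = -((inner ℝ w x) ^ 2 / ‖x‖ ^ 2) := by
        field_simp
        ring
      have h5 : (inner ℝ w x : ℝ) ^ 2 / ‖x‖ ^ 2 ≤ 0 := by linarith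
      have h6 : (inner ℝ w x : ℝ) ^ 2 ≤ 0 := by
        rw [div_le_iff₀ hxn, zero_mul] at h5
        exact h5
      exact pow_eq_zero_iff (by norm_num : (2 : ℕ) ≠ 0) |>.1 (le_antisymm h6 (sq_nonneg _))
  have h3 : ‖v‖ ^ 2 = ‖w‖ ^ 2 + ‖x‖ ^ 2 := by
    have h4 : v = w + x := by rw [hw]; abel
    rw [h4, norm_add_sq_real, h0]
    ring
  rw [← hx]
  apply le_of_sq_le_sq _ (norm_nonneg _)
  rw [h3]
  nlinarith [sq_nonneg ‖w‖]

end Pool.Agent.U498.AC
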