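import Pool.Agent.U211.BLV.Imm
import Pool.Agent.U498.AC.Apx
import Pool.Agent.U498.AC.DerX
import Pool.Agent.U498.AC.Near

/-!
# Coordinates near a point of an embedded manifold
-/

set_option autoImplicit false
set_option linter.unusedSectionVars false

open Set Filter Topology Metric Function MeasureTheory
open scoped Manifold ContDiff

noncomputable section

namespace Pool.Agent.U498.AC

open Pool.Agent.Y522 Pool.Agent.U211.BLV
open Pool.Agent.U211.BL hiding Mol LL LL_apply moll_congr moll_const moll_cont moll_conv moll_pos moll_joint moll_null mollS k_smul_integrable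

variable {n m d : ℕ}

/-- quadratic estimate -/
theorem quad_local {T : E m → E n} {y₀ : E m} (h : ContDiffAt ℝ ∞ T y₀) :
    ∃ r C : ℝ, 0 < r ∧ 0 ≤ C ∧ ∀ y ∈ ball y₀ r, ‖fderiv ℝ T y‖ ≤ C ∧
      ∀ v : E m, ‖v‖ ≤ r → ‖T (y + v) - T y - fderiv ℝ T y v‖ ≤ C * ‖v‖ ^ 2 := by
  have h1 : ContDiffAt ℝ 1 (fderiv ℝ T) y₀ := (h.fderiv_right (m := ∞) (by simp)).of_le (by simp)
  obtain ⟨k, s, hs, hk⟩ := h1.exists_lipschitzOnWith
  have h2 : ∀ᶠ y in 𝓝 y₀, DifferentiableAt ℝ T y := by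
    have hne : (1 : WithTop ℕ∞) ≠ ∞ := by simp
    filter_upwards [(h.of_le (m := 1) (by simp)).eventually hne] with y hy
    exact hy.differentiableAt one_ne_zero
  have h3 : ∀ᶠ y in 𝓝 y₀, ‖fderiv ℝ T y‖ < ‖fderiv ℝ T y₀‖ + 1 :=
    h1.continuousAt.norm.eventually_lt_const (by linarith)
  obtain ⟨r, hr, hb⟩ := Metric.eventually_nhds_iff_ball.1
    ((show ∀ᶠ y in 𝓝 y₀, y ∈ s from hs).and (h2.and h3))
  refine ⟨r / 2, max k (‖fderiv ℝ T y₀‖ + 1), by positivity,
    le_trans k.coe_nonneg (le_max_left _ _), ?_⟩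
  intro y hy
  rw [mem_ball, dist_eq_norm] at hy
  refine ⟨?_, ?_⟩
  · have h4 := (hb y (by rw [mem_ball, dist_eq_norm]; linarith)).2.2
    exact h4.le.trans (le_max_right _ _)
  · intro v hv
    have hin : ∀ x ∈ closedBall y ‖v‖, x ∈ ball y₀ r := by
      intro x hx
      rw [mem_closedBall, dist_eq_norm] at hx
      rw [mem_ball, dist_eq_norm]
      have := norm_add_le (x - y) (y - y₀)
      rw [sub_add_sub_cancel] at this
      linarith
    have h4 : ∀ x ∈ closedBall y ‖v‖, HasFDerivWithinAt (fun x => T x - fderiv ℝ T y x)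
        (fderiv ℝ T x - fderiv ℝ T y) (closedBall y ‖v‖) x := by
      intro x hx
      exact ((hb x (hin x hx)).2.1.hasFDerivAt.sub (fderiv ℝ T y).hasFDerivAt).hasFDerivWithinAt
    have h5 : ∀ x ∈ closedBall y ‖v‖, ‖fderiv ℝ T x - fderiv ℝ T y‖ ≤ k * ‖v‖ := by
      intro x hx
      have h6 := hk.dist_le_mul x (hb x (hin x hx)).1 y
        (hb y (hin y (mem_closedBall_self (norm_nonneg _)))).1
      rw [dist_eq_norm] at h6
      rw [mem_closedBall] at hx
      exact h6.trans (mul_le_mul_of_nonneg_left hx k.coe_nonneg)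
    have h6 := (convex_closedBall y ‖v‖).norm_image_sub_le_of_norm_hasFDerivWithin_le h4 h5
      (mem_closedBall_self (norm_nonneg _)) (y := y + v)
      (by rw [mem_closedBall, dist_eq_norm, add_sub_cancel_left])
    rw [add_sub_cancel_left] at h6
    have h7 : T (y + v) - fderiv ℝ T y (y + v) - (T y - fderiv ℝ T y y) =
        T (y + v) - T y - fderiv ℝ T y v := by
      rw [map_add]
      abel
    rw [h7] at h6
    refine h6.trans ?_
    have h8 : (k : ℝ) * ‖v‖ * ‖v‖ = k * ‖v‖ ^ 2 := by ring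
    rw [h8]
    exact mul_le_mul_of_nonneg_right (le_max_left _ _) (by positivity)

/-- a smooth function which is equal to `f` near a point -/
theorem exists_global {f : E m → E n} {z : E m} (h : ∀ᶠ q in 𝓝 z, ContDiffAt ℝ ∞ f q) :
    ∃ T : E m → E n, ContDiff ℝ ∞ T ∧ T =ᶠ[𝓝 z] f := by
  obtain ⟨ε, hε, hb⟩ := Metric.eventually_nhds_iff_ball.1 h
  let χ : ContDiffBump z := ⟨ε / 3, ε / 2, by positivity, by linarith⟩
  refine ⟨fun y => χ y • f y, ?_, ?_⟩
  · rw [contDiff_iff_contDiffAt]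
    intro y
    by_cases hy : y ∈ ball z ε
    · exact χ.contDiff.contDiffAt.smul (hb y hy)
    · have : (fun y => χ y • f y) =ᶠ[𝓝 y] fun _ => 0 := by
        have h1 : ∀ᶠ w in 𝓝 y, ε / 2 < dist w z := by
          rw [mem_ball, not_lt] at hy
          exact (continuous_id.dist continuous_const).continuousAt.eventually_const_lt
            (by show ε / 2 < dist y z; linarith)
        filter_upwards [h1] with w hw
        rw [χ.zero_of_le_dist hw.le, zero_smul]
      exact contDiffAt_const.congr_of_eventuallyEq this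
  · filter_upwards [ball_mem_nhds z (by positivity : 0 < ε / 3)] with y hy
    rw [χ.one_of_mem_closedBall (ball_subset_closedBall hy), one_smul]

variable {X Y : Type} [TopologicalSpace X] [ChartedSpace (E n) X]

/-- the coordinates of the retraction -/
def tau (πM : E m → X) (A : E n → X) (q : E m) : E n := iv A (πM q)

/-- the properties of the coordinates at the point `A y` -/
structure Good1 (ι : X → E m) (T : E m → E n) (A : E n → X) (F : X → E d) (H : E m → E d)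
    (Λ s : ℝ) (y : E n) : Prop where
  eq : ∀ v : E m, ‖v‖ ≤ s → H (ι (A y) + v) = F (A (T (ι (A y) + v)))
  quad : ∀ v : E m, ‖v‖ ≤ s →
    ‖T (ι (A y) + v) - y - fderiv ℝ T (ι (A y)) v‖ ≤ Λ * ‖v‖ ^ 2
  der : HasFDerivAt (fun w => ι (A w)) (fderiv ℝ (fun w => ι (A w)) y) y
  inv : ∀ u, fderiv ℝ T (ι (A y)) (fderiv ℝ (fun w => ι (A w)) y u) = u
  fix : T (ι (A y)) = y

theorem tau_smooth {ι : X → E m} {πM : E m → X} (hTM : Tub n ι πM) {A : E n → X} (hA : Box A) :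
    ∀ᶠ q in 𝓝 (ι (A 0)), ContDiffAt ℝ ∞ (tau πM A) q := by
  have hiv : LD n (iv A) (A 0) := iv_ld hA (by simp)
  have hπc : ContinuousAt πM (ι (A 0)) := (hTM.near (A 0)).self_of_nhds.continuousAt
  have hπt : Tendsto πM (𝓝 (ι (A 0))) (𝓝 (A 0)) := by
    have := hπc.tendsto
    rwa [hTM.retr] at this
  filter_upwards [hTM.near (A 0), hπt.eventually hiv.eventually] with q h1 h2
  exact contMDiffAt_iff_contDiffAt.1 (ContMDiffAt.comp (I' := 𝓡 n) (g := iv A) (f := πM) q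
    h2.contMDiffAt h1)

theorem A_tau {ι : X → E m} {πM : E m → X} (hTM : Tub n ι πM) {A : E n → X} (hA : Box A) :
    ∀ᶠ q in 𝓝 (ι (A 0)), A (tau πM A q) = πM q := by
  have hπc : ContinuousAt πM (ι (A 0)) := (hTM.near (A 0)).self_of_nhds.continuousAt
  have hπt : Tendsto πM (𝓝 (ι (A 0))) (𝓝 (A 0)) := by
    have := hπc.tendsto
    rwa [hTM.retr] at this
  have himg : ∀ᶠ q in 𝓝 (ι (A 0)), πM q ∈ A '' ball 0 2 :=
    hπt.eventually ((box_isOpen hA isOpen_ball ball_subset_closedBall).mem_nhds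
      ⟨0, by simp, rfl⟩)
  filter_upwards [himg] with q hq
  obtain ⟨w, hw, hw2⟩ := hq
  rw [mem_ball_zero_iff] at hw
  unfold tau
  rw [← hw2, iv_of hA hw.le]

theorem iota_smooth {ι : X → E m} {πM : E m → X} (hTM : Tub n ι πM) {A : E n → X} (hA : Box A)
    (w : E n) (hw : ‖w‖ ≤ 2) : ContDiffAt ℝ ∞ (fun w => ι (A w)) w :=
  contMDiffAt_iff_contDiffAt.1 ((hTM.smooth (A w)).comp w
    (hA.ld w (by simpa using hw)).contMDiffAt)

/-- the norm of the derivative of the coordinates -/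
theorem S0_le {ι : X → E m} {πM : E m → X} (hTM : Tub n ι πM)
    (hn : ∀ p y, ‖p - ι (πM p)‖ ≤ ‖p - ι y‖) {A : E n → X} (hA : Box A) {σ : ℝ} (hσ : 0 < σ)
    (hiso : ∀ v, σ * ‖v‖ ≤ ‖fderiv ℝ (fun w => ι (A w)) 0 v‖) :
    ‖fderiv ℝ (tau πM A) (ι (A 0))‖ ≤ σ⁻¹ := by
  apply ContinuousLinearMap.opNorm_le_bound _ (by positivity)
  intro v
  have h1 : HasFDerivAt (tau πM A) (fderiv ℝ (tau πM A) (ι (A 0))) (ι (A 0)) :=
    ((tau_smooth hTM hA).self_of_nhds.differentiableAt (by simp)).hasFDerivAt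
  have h0 : tau πM A (ι (A 0)) = 0 := by
    unfold tau
    rw [hTM.retr, iv_of hA (by simp)]
  have h2 : HasFDerivAt (fun w => ι (A w)) (fderiv ℝ (fun w => ι (A w)) 0)
      (tau πM A (ι (A 0))) := by
    rw [h0]
    exact ((iota_smooth hTM hA 0 (by simp)).differentiableAt (by simp)).hasFDerivAt
  have h3 := h2.comp (ι (A 0)) h1
  have h4 : PP ι πM =ᶠ[𝓝 (ι (A 0))] (fun w => ι (A w)) ∘ tau πM A := by
    filter_upwards [A_tau hTM hA] with q hq
    simp only [comp_apply]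
    rw [hq]
    rfl
  have h5 := (h3.congr_of_eventuallyEq h4).unique (PP_hasFDerivAt hTM (A 0))
  have h6 := congrArg (fun L : E m →L[ℝ] E m => L v) h5
  simp only [ContinuousLinearMap.comp_apply] at h6
  have h7 := hiso (fderiv ℝ (tau πM A) (ι (A 0)) v)
  rw [h6] at h7
  have h8 := h7.trans (PP_le hTM hn (A 0) v)
  rw [← div_eq_inv_mul, le_div_iff₀ hσ, mul_comm]
  exact h8

theorem geo {ι : X → E m} {πM : E m → X} (hTM : Tub n ι πM) {A : E n → X} (hA : Box A)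
    {F : X → E d} {H : E m → E d} (hH : ∀ᶠ p in 𝓝 (ι (A 0)), H p = F (πM p)) {κ : ℝ}
    (hκ : 0 < κ) :
    ∃ (T : E m → E n) (Λ s : ℝ), ContDiff ℝ ∞ T ∧ 1 ≤ Λ ∧ 0 < s ∧ s ≤ 1 ∧ ∀ y : E n, ‖y‖ ≤ s →
      Good1 ι T A F H Λ s y ∧
      ‖fderiv ℝ T (ι (A y))‖ ≤ ‖fderiv ℝ (tau πM A) (ι (A 0))‖ + κ ∧
      ‖fderiv ℝ (fun w => ι (A w)) y‖ ≤ ‖fderiv ℝ (fun w => ι (A w)) 0‖ + κ := by
  have hs0 := tau_smooth hTM hA
  obtain ⟨T, hTs, hTe⟩ := exists_global hs0
  have hTd : fderiv ℝ T (ι (A 0)) = fderiv ℝ (tau πM A) (ι (A 0)) := hTe.fderiv_eq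
  have hTc : Continuous (fderiv ℝ T) := hTs.continuous_fderiv (by simp)
  obtain ⟨r₁, C₁, hr₁, hC₁, hq⟩ := quad_local (hTs.contDiffAt (x := ι (A 0)))
  have hall : ∀ᶠ q in 𝓝 (ι (A 0)), (A (T q) = πM q ∧ H q = F (πM q)) ∧
      (T q = tau πM A q ∧ ‖fderiv ℝ T q‖ < ‖fderiv ℝ (tau πM A) (ι (A 0))‖ + κ) := by
    have h1 : ∀ᶠ q in 𝓝 (ι (A 0)), ‖fderiv ℝ T q‖ < ‖fderiv ℝ (tau πM A) (ι (A 0))‖ + κ := by
      apply hTc.norm.continuousAt.eventually_lt_const
      show ‖fderiv ℝ T (ι (A 0))‖ < _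
      rw [hTd]
      linarith
    filter_upwards [A_tau hTM hA, hH, hTe, h1] with q h1 h2 h3 h4
    exact ⟨⟨by rw [h3, h1], h2⟩, h3, h4⟩
  obtain ⟨r₂, hr₂, hb⟩ := Metric.eventually_nhds_iff_ball.1 hall
  -- the embedding in the box
  have h0 := iota_smooth hTM hA 0 (by simp)
  have hd0 : ContinuousAt (fderiv ℝ (fun w => ι (A w))) 0 :=
    (h0.fderiv_right (m := 0) (by simp)).continuousAt
  have e1 : ∀ᶠ y in 𝓝 (0 : E n), ‖fderiv ℝ (fun w => ι (A w)) y‖ <
      ‖fderiv ℝ (fun w => ι (A w)) 0‖ + κ :=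
    hd0.norm.eventually_lt_const (by linarith)
  have e2 : ∀ᶠ y in 𝓝 (0 : E n), ι (A y) ∈ ball (ι (A 0)) (min r₁ (r₂ / 2)) :=
    h0.continuousAt.eventually (ball_mem_nhds _ (lt_min hr₁ (by positivity)))
  have e3 : ∀ᶠ y in 𝓝 (0 : E n), ‖y‖ < 1 := continuous_norm.continuousAt.eventually_lt_const
    (by simp)
  obtain ⟨r₃, hr₃, hb3⟩ := Metric.eventually_nhds_iff_ball.1 ((e1.and e2).and e3)
  refine ⟨T, 1 + C₁, min (min r₁ (r₂ / 3)) (min (r₃ / 2) 1), hTs, by linarith, ?_,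
    (min_le_right _ _).trans (min_le_right _ _), fun y hy => ?_⟩
  · exact lt_min (lt_min hr₁ (by positivity)) (lt_min (by positivity) one_pos)
  have hy3 : ‖y‖ ≤ r₃ / 2 := hy.trans ((min_le_right _ _).trans (min_le_left _ _))
  obtain ⟨⟨b1, b2⟩, b3⟩ := hb3 y (by rw [mem_ball_zero_iff]; linarith)
  have hz1 : ι (A y) ∈ ball (ι (A 0)) r₁ := ball_subset_ball (min_le_left _ _) b2
  have hz2 : ι (A y) ∈ ball (ι (A 0)) (r₂ / 2) := ball_subset_ball (min_le_right _ _) b2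
  have hz2' : ι (A y) ∈ ball (ι (A 0)) r₂ := ball_subset_ball (by linarith) hz2
  obtain ⟨q1, q2⟩ := hq _ hz1
  have hfix0 : ∀ w : E n, ‖w‖ ≤ 2 → tau πM A (ι (A w)) = w := by
    intro w hw
    unfold tau
    rw [hTM.retr, iv_of hA hw]
  have hfix : T (ι (A y)) = y := by
    rw [(hb _ hz2').2.1, hfix0 y (by linarith)]
  have hder : HasFDerivAt (fun w => ι (A w)) (fderiv ℝ (fun w => ι (A w)) y) y :=
    ((iota_smooth hTM hA y (by linarith)).differentiableAt (by simp)).hasFDerivAt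
  refine ⟨⟨?_, ?_, hder, ?_, hfix⟩, (hb _ hz2').2.2.le, b1.le⟩
  · intro v hv
    have hv1 : ‖v‖ ≤ r₂ / 3 := hv.trans ((min_le_left _ _).trans (min_le_right _ _))
    have hm : ι (A y) + v ∈ ball (ι (A 0)) r₂ := by
      rw [mem_ball, dist_eq_norm] at hz2 ⊢
      have : ι (A y) + v - ι (A 0) = (ι (A y) - ι (A 0)) + v := by abel
      rw [this]
      have := norm_add_le (ι (A y) - ι (A 0)) v
      linarith
    obtain ⟨⟨h1, h2⟩, -⟩ := hb _ hm
    rw [h2, h1]
  · intro v hv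
    have hv1 : ‖v‖ ≤ r₁ := hv.trans ((min_le_left _ _).trans (min_le_left _ _))
    have h3 := q2 v hv1
    rw [hfix] at h3
    refine h3.trans ?_
    apply mul_le_mul_of_nonneg_right _ (by positivity)
    linarith
  · intro u
    have h1 : HasFDerivAt T (fderiv ℝ T (ι (A y))) (ι (A y)) :=
      ((hTs.differentiable (by simp)).differentiableAt).hasFDerivAt
    have h2 := h1.comp y hder
    have h3 : T ∘ (fun w => ι (A w)) =ᶠ[𝓝 y] id := by
      have h4 : ∀ᶠ w in 𝓝 y, ‖w‖ < 2 := continuous_norm.continuousAt.eventually_lt_const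
        (by linarith)
      have h5 : ∀ᶠ w in 𝓝 y, ι (A w) ∈ ball (ι (A 0)) r₂ :=
        hder.continuousAt.eventually (isOpen_ball.mem_nhds hz2')
      filter_upwards [h4, h5] with w hw hw2
      simp only [comp_apply, id_eq]
      rw [(hb _ hw2).2.1, hfix0 w hw.le]
    have h5 := (h2.congr_of_eventuallyEq h3.symm).unique (hasFDerivAt_id y)
    have h6 := congrArg (fun L : E n →L[ℝ] E n => L u) h5
    simpa using h6

end Pool.Agent.U498.AC
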