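import Pool.Agent.U498.AC.CoreX

/-!
# Smoothing of homeomorphisms of closed manifolds which are close to affine maps at small scales
-/

set_option autoImplicit false
set_option linter.unusedSectionVars false

open Set Filter Topology Metric Function MeasureTheory
open scoped Manifold ContDiff

noncomputable section

namespace Pool.Agent.U498.AC

open Pool.Agent.Y522 Pool.Agent.U211.BLV
open Pool.Agent.U211.BL hiding Mol LL LL_apply moll_congr moll_const moll_cont moll_conv moll_pos moll_joint moll_null mollS k_smul_integrable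

section local_

variable {n m d : ℕ}

/-- the map is close to affine maps at all small scales near the origin -/
def AAc (G : E n → E d) : Prop := ∀ ε > 0, ∃ δ > 0, ∀ (y : E n) (r : ℝ), ‖y‖ ≤ δ → 0 < r → r ≤ δ →
  ∃ (a : E d) (L : E n →L[ℝ] E d), Apx G ε y r a L

/-- the map is `c`-close to affine maps at the small scales `r / σ`, `r ∈ R`, near the origin -/
def SAc (R : Set ℝ) (σ c : ℝ) (G : E n → E d) : Prop :=
  ∃ s > 0, ∀ (y : E n) (r : ℝ), ‖y‖ ≤ s → r ∈ R → 0 < r → r ≤ s →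
    ∃ (a : E d) (L : E n →L[ℝ] E d), Apx G c y (r / σ) a L

theorem AAc.scale {G : E n → E d} (h : AAc G) {σ : ℝ} (hσ : 0 < σ) (hσ1 : σ ≤ 1) :
    AAc (fun p => G (σ • p)) := by
  intro ε hε
  obtain ⟨δ, hδ, h1⟩ := h ε hε
  refine ⟨δ, hδ, fun y r hy hr hrδ => ?_⟩
  have hn : ∀ p : E n, ‖σ • p‖ = σ * ‖p‖ := fun p => by rw [norm_smul, Real.norm_of_nonneg hσ.le]
  obtain ⟨a, L, h2⟩ := h1 (σ • y) (σ * r) (by rw [hn]; nlinarith [norm_nonneg y])
    (by positivity) (by nlinarith)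
  refine ⟨a, σ • L, fun p hp v hv => ?_⟩
  have h3 := h2 (σ • p) (by rw [← smul_sub, hn]; gcongr) v hv
  rw [map_smul] at h3
  rw [_root_.smul_apply, _root_.smul_apply, norm_smul, Real.norm_of_nonneg hσ.le]
  refine h3.trans (le_of_eq (by ring))

theorem SAc.scale {R : Set ℝ} {c : ℝ} {G : E n → E d} (h : SAc R 1 c G) {σ : ℝ} (hσ : 0 < σ)
    (hσ1 : σ ≤ 1) : SAc R σ c (fun p => G (σ • p)) := by
  obtain ⟨s, hs, h1⟩ := h
  refine ⟨s, hs, fun y r hy hrR hr hrs => ?_⟩
  have hn : ∀ p : E n, ‖σ • p‖ = σ * ‖p‖ := fun p => by rw [norm_smul, Real.norm_of_nonneg hσ.le]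
  obtain ⟨a, L, h2⟩ := h1 (σ • y) r (by rw [hn]; nlinarith [norm_nonneg y]) hrR hr hrs
  rw [div_one] at h2
  refine ⟨a, σ • L, fun p hp v hv => ?_⟩
  have h3 := h2 (σ • p) (by
    rw [← smul_sub, hn]
    rw [le_div_iff₀ hσ] at hp
    linarith) v hv
  rw [map_smul] at h3
  rw [_root_.smul_apply, _root_.smul_apply, norm_smul, Real.norm_of_nonneg hσ.le]
  refine h3.trans (le_of_eq (by field_simp))

/-- local diffeomorphisms with values in an embedded manifold -/
theorem AAc_of_smooth {G : E n → E d} (hG : ContDiffAt ℝ ∞ G 0)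
    (hi : ∀ u, ‖u‖ = 1 → fderiv ℝ G 0 u ≠ 0) : AAc G := by
  have h1 : ContDiffAt ℝ 1 G 0 := hG.of_le (by simp)
  have h2 : ∀ᶠ y in 𝓝 (0 : E n), DifferentiableAt ℝ G y := by
    filter_upwards [h1.eventually (by simp)] with y hy
    exact hy.differentiableAt one_ne_zero
  have h3 : ContinuousAt (fderiv ℝ G) 0 := (hG.fderiv_right (m := 0) (by simp)).continuousAt
  -- the lower bound
  obtain ⟨μ, hμ, hμ2⟩ : ∃ μ : ℝ, 0 < μ ∧ ∀ u : E n, ‖u‖ = 1 → μ ≤ ‖fderiv ℝ G 0 u‖ := by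
    have hcomp : IsCompact (sphere (0 : E n) 1) := isCompact_sphere _ _
    by_cases hne : (sphere (0 : E n) 1).Nonempty
    · obtain ⟨u₀, hu₀, hmin⟩ := hcomp.exists_isMinOn hne
        ((fderiv ℝ G 0).continuous.norm.continuousOn)
      rw [mem_sphere_zero_iff_norm] at hu₀
      refine ⟨‖fderiv ℝ G 0 u₀‖, norm_pos_iff.2 (hi u₀ hu₀), fun u hu => ?_⟩
      exact isMinOn_iff.1 hmin u (by rwa [mem_sphere_zero_iff_norm])
    · refine ⟨1, one_pos, fun u hu => ?_⟩
      exact absurd ⟨u, by rwa [mem_sphere_zero_iff_norm]⟩ hne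
  intro ε hε
  have h4 : ∀ᶠ y in 𝓝 (0 : E n), ‖fderiv ℝ G y - fderiv ℝ G 0‖ < ε * μ := by
    have := Metric.continuousAt_iff'.1 h3 (ε * μ) (by positivity)
    filter_upwards [this] with y hy
    rwa [dist_eq_norm] at hy
  obtain ⟨s, hs, hb⟩ := Metric.eventually_nhds_iff_ball.1 (h2.and h4)
  refine ⟨s / 3, by positivity, fun y r hy hr hrs => ?_⟩
  refine ⟨G y - fderiv ℝ G 0 y, fderiv ℝ G 0, fun p hp v hv => ?_⟩
  have hin : ∀ x ∈ closedBall y r, x ∈ ball (0 : E n) s := by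
    intro x hx
    rw [mem_closedBall, dist_eq_norm] at hx
    rw [mem_ball_zero_iff]
    have := norm_add_le (x - y) y
    rw [sub_add_cancel] at this
    linarith
  have h5 : ∀ x ∈ closedBall y r, HasFDerivWithinAt G (fderiv ℝ G x) (closedBall y r) x :=
    fun x hx => (hb x (hin x hx)).1.hasFDerivAt.hasFDerivWithinAt
  have h6 : ∀ x ∈ closedBall y r, ‖fderiv ℝ G x - fderiv ℝ G 0‖ ≤ ε * μ :=
    fun x hx => (hb x (hin x hx)).2.le
  have h7 := (convex_closedBall y r).norm_image_sub_le_of_norm_hasFDerivWithin_le' h5 h6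
    (mem_closedBall_self hr.le) (y := p) (by rwa [mem_closedBall, dist_eq_norm])
  have h8 : G p - (G y - fderiv ℝ G 0 y + fderiv ℝ G 0 p) =
      G p - G y - fderiv ℝ G 0 (p - y) := by
    rw [map_sub]
    abel
  rw [h8]
  refine h7.trans ?_
  calc ε * μ * ‖p - y‖ ≤ ε * ‖fderiv ℝ G 0 v‖ * r := by
        apply mul_le_mul _ hp (norm_nonneg _) (by positivity)
        exact mul_le_mul_of_nonneg_left (hμ2 v hv) hε.le
    _ = ε * (r * ‖fderiv ℝ G 0 v‖) := by ring

variable {X : Type} [TopologicalSpace X] [ChartedSpace (E n) X]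

/-- the map is asymptotically affine at `x`, in a suitable parametrization -/
def AAat (n : ℕ) {d : ℕ} {X : Type} [TopologicalSpace X] [ChartedSpace (E n) X] (F : X → E d)
    (x : X) : Prop :=
  ∃ A : E n → X, A 0 = x ∧ LD n A 0 ∧ AAc (fun p => F (A p))

/-- the map is `c`-close to affine maps at the scales in `R` near `x`, in a parametrization which
is isometric at the origin -/
def SAat (n : ℕ) {m d : ℕ} {X : Type} [TopologicalSpace X] [ChartedSpace (E n) X]
    (ι : X → E m) (lam : ℝ) (R : Set ℝ) (c : ℝ) (F : X → E d) (x : X) : Prop :=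
  ∃ A : E n → X, A 0 = x ∧ LD n A 0 ∧
    (∀ v, ‖fderiv ℝ (fun w => ι (A w)) 0 v‖ = lam * ‖v‖) ∧ SAc R 1 c (fun p => F (A p))

/-- boxes from parametrizations -/
theorem exists_box0 {A : E n → X} (hAd : LD n A 0) :
    ∃ σ : ℝ, 0 < σ ∧ σ ≤ 1 ∧ Box (fun z => A (σ • z)) := by
  obtain ⟨s, hs, hsi⟩ := hAd.eventually_injOn
  obtain ⟨t, ht, hts⟩ := Metric.eventually_nhds_iff_ball.1 (hAd.eventually.and
    (show ∀ᶠ y in 𝓝 (0 : E n), y ∈ s from hs))
  obtain ⟨τ, hτ⟩ : ∃ τ, τ = min (t / 4) 1 := ⟨_, rfl⟩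
  have hτ0 : 0 < τ := by rw [hτ]; exact lt_min (by linarith) one_pos
  have hτt : τ ≤ t / 4 := by rw [hτ]; exact min_le_left _ _
  have hτ1 : τ ≤ 1 := by rw [hτ]; exact min_le_right _ _
  have hnm : ∀ z ∈ closedBall (0 : E n) 2, ‖τ • z‖ ≤ 2 * τ := by
    intro z hz
    rw [mem_closedBall_zero_iff] at hz
    rw [norm_smul, Real.norm_of_nonneg hτ0.le]
    nlinarith
  refine ⟨τ, hτ0, hτ1, ⟨?_, ?_⟩⟩
  · intro z hz w hw hzw
    have h1 := (hts (τ • z) (by rw [mem_ball_zero_iff]; linarith [hnm z hz])).2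
    have h2 := (hts (τ • w) (by rw [mem_ball_zero_iff]; linarith [hnm w hw])).2
    exact smul_right_injective _ hτ0.ne' (hsi h1 h2 hzw)
  · intro z hz
    have h1 := (hts (τ • z) (by rw [mem_ball_zero_iff]; linarith [hnm z hz])).1
    have h2 : LD n (fun y : E n => τ • y) z :=
      LD_linear (ContinuousLinearEquiv.smulLeft (Units.mk0 τ hτ0.ne')) z
    exact LD.comp_fun (g := A) (f := fun y : E n => τ • y) h1 h2

end local_

section null

variable {n m d : ℕ} {X Y : Type} [TopologicalSpace X] [ChartedSpace (E n) X] [T2Space X]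
  [IsManifold (𝓡 n) ∞ X] [TopologicalSpace Y] [ChartedSpace (E n) Y] [IsManifold (𝓡 n) ∞ Y]
  [CompactSpace Y]

variable {r₀ : ℝ} (K : Ker m r₀)

/-- a good point with the chart of `X` -/
theorem good_box {e : Y → E d} {π : E d → Y} (hT : Tub n e π) {g : X → Y} {A : E n → X}
    (hA : Box A) (hx : LD n g (A 0)) :
    ContDiffAt ℝ ∞ (fun p => e (g (A p))) 0 ∧
      ∀ u, ‖u‖ = 1 → fderiv ℝ (fun p => e (g (A p))) 0 u ≠ 0 := by
  have hjy := hA.ld 0 (by simp)
  have hgA : LD n (fun y => g (A y)) 0 := LD.comp_fun hx hjy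
  have h1 : ContDiffAt ℝ ∞ (fun p => e (g (A p))) 0 :=
    contMDiffAt_iff_contDiffAt.1 ((hT.smooth (g (A 0))).comp 0 hgA.contMDiffAt)
  refine ⟨h1, fun u hu => ?_⟩
  have hFA : HasFDerivAt (fun y => e (g (A y))) (fderiv ℝ (fun y => e (g (A y))) 0) 0 :=
    (h1.differentiableAt (by simp)).hasFDerivAt
  refine imm_of_LD hT hgA hFA ?_
  intro h5
  rw [h5, norm_zero] at hu
  exact zero_ne_one hu

/-- points where the radius vanishes -/
theorem null_LD {ι : X → E m} {πM : E m → X} (hTM : Tub n ι πM)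
    {e : Y → E d} {π : E d → Y} (hT : Tub n e π) {g : X → Y} {H : E m → E d}
    (hH : ContinuousOn H (closedBall 0 2))
    (hHn : ∀ x, ∀ᶠ p in 𝓝 (ι x), H p = e (g (πM p))) {c : E m → ℝ} (hc : Rad c)
    {A : E n → X} (hA : Box A) (hx : LD n g (A 0)) (hcz : c (ι (A 0)) = 0) :
    LD n (fun x => π (Mol K H c (ι x))) (A 0) := by
  obtain ⟨hFs, hFi⟩ := good_box hT hA hx
  have hπt : Tendsto πM (𝓝 (ι (A 0))) (𝓝 (A 0)) := by
    have := (hTM.near (A 0)).self_of_nhds.continuousAt.tendsto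
    rwa [hTM.retr] at this
  have hHs : ∀ᶠ p in 𝓝 (ι (A 0)), ContDiffAt ℝ ∞ H p := by
    filter_upwards [(hHn (A 0)).eventually_nhds, hTM.near (A 0), hπt.eventually hx.eventually] with
      p h1 h2 h3
    have h4 : ContMDiffAt (𝓡 m) (𝓡 d) ∞ (fun p => e (g (πM p))) p :=
      (hT.smooth (g (πM p))).comp p (h3.contMDiffAt.comp p h2)
    exact (contMDiffAt_iff_contDiffAt.1 h4).congr_of_eventuallyEq h1
  obtain ⟨m1, m2⟩ := moll_null K hc.smooth hc.nonneg hcz hHs
  have hMs : ∀ᶠ p in 𝓝 (ι (A 0)), ContDiffAt ℝ ∞ (Mol K H c) p := by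
    filter_upwards [hHs.eventually_nhds] with p hp
    rcases (hc.nonneg p).lt_or_eq with h | h
    · exact moll_pos K hH hc.smooth hc.le (fun z hz => hc.zero z hz.le) h
    · exact (moll_null K hc.smooth hc.nonneg h.symm hp).1
  have hιA := iota_smooth hTM hA
  have hder : HasFDerivAt (fun w => ι (A w)) (fderiv ℝ (fun w => ι (A w)) 0) 0 :=
    ((hιA 0 (by simp)).differentiableAt (by simp)).hasFDerivAt
  have hval : Mol K H c (ι (A 0)) = e (g (A 0)) := by
    rw [moll_const K hcz, (hHn (A 0)).self_of_nhds, hTM.retr]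
  -- the derivative
  have hHd : HasFDerivAt H (fderiv ℝ H (ι (A 0))) (ι (A 0)) :=
    (hHs.self_of_nhds.differentiableAt (by simp)).hasFDerivAt
  have hcomp : HasFDerivAt (fun w => H (ι (A w)))
      ((fderiv ℝ H (ι (A 0))).comp (fderiv ℝ (fun w => ι (A w)) 0)) 0 :=
    HasFDerivAt.comp (g := H) (f := fun w => ι (A w)) 0 hHd hder
  have heq : (fun w => e (g (A w))) =ᶠ[𝓝 0] fun w => H (ι (A w)) := by
    filter_upwards [hder.continuousAt.eventually (hHn (A 0))] with w hw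
    rw [hw, hTM.retr]
  have hV : HasFDerivAt (fun w => e (g (A w)))
      ((fderiv ℝ H (ι (A 0))).comp (fderiv ℝ (fun w => ι (A w)) 0)) 0 :=
    hcomp.congr_of_eventuallyEq heq
  apply LD_of_box' hA (by simp)
  show LD n (fun w => π (Mol K H c (ι (A w)))) 0
  refine comp_box hT (G := fun w => Mol K H c (ι (A w)))
    (V := (fderiv ℝ H (ι (A 0))).comp (fderiv ℝ (fun w => ι (A w)) 0)) ?_ ?_ ?_ ?_
  · have h1 : ∀ᶠ w in 𝓝 (0 : E n), ‖w‖ < 2 := continuous_norm.continuousAt.eventually_lt_const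
      (by simp)
    filter_upwards [h1, hder.continuousAt.eventually hMs] with w hw1 hw2
    exact ContDiffAt.comp (g := Mol K H c) (f := fun w => ι (A w)) w hw2 (hιA w hw1.le)
  · have h4 : HasFDerivAt (Mol K H c) (fderiv ℝ H (ι (A 0))) (ι (A 0)) := by
      rw [← m2]
      exact (m1.differentiableAt (by simp)).hasFDerivAt
    exact HasFDerivAt.comp (g := Mol K H c) (f := fun w => ι (A w)) 0 h4 hder
  · rw [hval]
    exact hT.near _
  · intro u hu
    rw [hval]
    have h1 := (PP_hasFDerivAt hT (g (A 0))).comp 0 hV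
    have h3 : (PP e π) ∘ (fun y => e (g (A y))) = fun y => e (g (A y)) := by
      funext w
      exact PP_fix hT _
    rw [h3] at h1
    have h6 := congrArg (fun T : E n →L[ℝ] E d => T u) (h1.unique hV)
    have h7 : fderiv ℝ (PP e π) (e (g (A 0)))
        (((fderiv ℝ H (ι (A 0))).comp (fderiv ℝ (fun w => ι (A w)) 0)) u) =
        ((fderiv ℝ H (ι (A 0))).comp (fderiv ℝ (fun w => ι (A w)) 0)) u := h6
    rw [h7, ← hV.fderiv]
    exact hFi u hu

end null

end Pool.Agent.U498.AC
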