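import Pool.Agent.U498.AC.GeoX

/-!
# The derivative of the smoothed map, explicit constants
-/

set_option autoImplicit false
set_option linter.unusedSectionVars false

open Set Filter Topology Metric Function MeasureTheory
open scoped Manifold ContDiff

noncomputable section

namespace Pool.Agent.U498.AC

open Pool.Agent.Y522 Pool.Agent.U211.BLV
open Pool.Agent.U211.BL hiding Mol LL LL_apply moll_congr moll_const moll_cont moll_conv moll_pos moll_joint moll_null mollS k_smul_integrable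

variable {n m d : ℕ}

/-- the mollification is close to the function -/
theorem mol_close' {r₀ : ℝ} (K : Ker m r₀) {G : E m → E d} {c : E m → ℝ}
    (hG : ContinuousOn G (closedBall 0 2)) (hc : Rad c) {z : E m} (hz : ‖z‖ ≤ 3 / 2) {M : ℝ}
    (h : ∀ p, ‖p - z‖ ≤ c z → ‖G p - G z‖ ≤ M) : ‖Mol K G c z - G z‖ ≤ M := by
  have hcont : ContinuousOn (fun s => G (z + c z • s)) (closedBall (0 : E m) 1) := by
    apply hG.comp (by fun_prop)
    intro s hs
    exact pt_mem (hc.nonneg z) (hc.le z) hz (by simpa using hs)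
  have h1 : ∫ s, K.k s • G z = G z := by rw [integral_smul_const, K.int, one_smul]
  have h2 : Mol K G c z - G z = ∫ s, (K.k s • G (z + c z • s) - K.k s • G z) := by
    rw [integral_sub (k_smul_integrable K hcont) (K.integrable.smul_const _), h1]
    rfl
  have hle : ∀ s : E m, ‖K.k s • G (z + c z • s) - K.k s • G z‖ ≤ K.k s * M := by
    intro s
    rw [← smul_sub, norm_smul, Real.norm_of_nonneg (K.nonneg s)]
    by_cases hs : K.k s = 0
    · rw [hs, zero_mul, zero_mul]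
    apply mul_le_mul_of_nonneg_left _ (K.nonneg s)
    apply h
    rw [add_sub_cancel_left, norm_smul, Real.norm_of_nonneg (hc.nonneg z)]
    have := (K.lt hs).le
    have h3 := hc.nonneg z
    nlinarith
  rw [h2]
  calc _ ≤ ∫ s, K.k s * M :=
        norm_integral_le_of_norm_le (K.integrable.mul_const _) (Eventually.of_forall hle)
    _ = M := by rw [integral_mul_const, K.int, one_mul]

/-- the mollification of an affine function of a function -/
theorem mol_comp {r₀ : ℝ} (K : Ker m r₀) {T : E m → E n} (hT : Continuous T) (a : E d)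
    (L : E n →L[ℝ] E d) (c : E m → ℝ) :
    Mol K (fun p => a + L (T p)) c = fun z => a + L (Mol K T c z) := by
  funext z
  unfold Mol
  have h1 : Integrable fun s => K.k s • T (z + c z • s) := by
    apply Continuous.integrable_of_hasCompactSupport
    · exact K.cont.smul (hT.comp (by fun_prop))
    · exact (compactSupport_of fun s hs => K.zero s hs.le).smul_right
  have h2 : ∀ s, K.k s • (a + L (T (z + c z • s))) = K.k s • a + L (K.k s • T (z + c z • s)) := by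
    intro s
    rw [smul_add, map_smul]
  simp only [h2]
  rw [integral_add (K.integrable.smul_const _) (L.integrable_comp h1),
    integral_smul_const, K.int, one_smul, L.integral_comp_comm h1]

/-- **the derivative of the mollified map** -/
theorem der_nearX {r₀ : ℝ} {K : Ker m r₀} (hr : 0 < r₀) {GA : E n → E d}
    {H : E m → E d} {T : E m → E n} {y : E n} {z : E m} {a : E d} {L : E n →L[ℝ] E d}
    {D : E n →L[ℝ] E m} {ε τ Λ β ΛD : ℝ} {c : E m → ℝ}
    (hH : ContinuousOn H (closedBall 0 2)) (hc : Rad c) (hTs : ContDiff ℝ ∞ T)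
    (hcz : 0 < c z) (hε : 0 ≤ ε) (hc1 : ‖fderiv ℝ c z‖ ≤ β)
    (hap : Apx GA ε y (τ * c z) a L) (hΛ : 0 ≤ Λ) (hτ0 : 0 ≤ τ)
    (hball : ∀ p, ‖p - z‖ ≤ c z → ‖T p - y‖ ≤ τ * c z)
    (h1 : ∀ p, ‖p - z‖ ≤ c z → H p = GA (T p))
    (h2 : ∀ v : E m, ‖v‖ ≤ c z → ‖T (z + v) - y - fderiv ℝ T z v‖ ≤ Λ * ‖v‖ ^ 2)
    (hD : ‖D‖ ≤ ΛD) (hSD : ∀ u, fderiv ℝ T z (D u) = u) {u : E n} (hu : ‖u‖ = 1) :
    ∃ u'' : E n, ‖u'' - u‖ ≤ (Real.sqrt m / r₀ + 2 * m * β) * (Λ * c z) * ΛD ∧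
      ∀ v, ‖v‖ = 1 → ‖((fderiv ℝ (Mol K H c) z).comp D) u - L u''‖ ≤
        (Real.sqrt m / r₀ + 2 * m * β) * (ε * τ) * ΛD * ‖L v‖ := by
  have hβ : 0 ≤ β := (norm_nonneg _).trans hc1
  obtain ⟨CK, hCK⟩ : ∃ CK, CK = Real.sqrt m / r₀ + 2 * m * β := ⟨_, rfl⟩
  have hCK0 : 0 ≤ CK := by rw [hCK]; positivity
  have hDu : ‖D u‖ ≤ ΛD := by
    have := D.le_of_opNorm_le hD u
    rwa [hu, mul_one] at this
  have hΛD : 0 ≤ ΛD := (norm_nonneg _).trans hD
  refine ⟨fderiv ℝ (Mol K T c) z (D u), ?_, ?_⟩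
  · have h3 := mol_compareX K hr (G := T) (G' := fun p => (y - fderiv ℝ T z z) + fderiv ℝ T z p)
      (hTs.continuous.continuousOn) (by fun_prop) hc hcz hc1 (e := Λ * c z ^ 2) (by positivity)
      (by
        intro p hp
        have h4 := h2 (p - z) hp
        rw [add_sub_cancel] at h4
        have h5 : T p - ((y - fderiv ℝ T z z) + fderiv ℝ T z p) =
            T p - y - fderiv ℝ T z (p - z) := by
          rw [map_sub]
          abel
        rw [h5]
        refine h4.trans ?_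
        gcongr) (D u)
    rw [mol_affine] at h3
    have h4 : HasFDerivAt (fun p : E m => (y - fderiv ℝ T z z) + fderiv ℝ T z p)
      (fderiv ℝ T z) z := (fderiv ℝ T z).hasFDerivAt.const_add _
    rw [h4.fderiv, hSD, ← hCK] at h3
    rw [← hCK]
    have h5 : CK * (Λ * c z ^ 2 / c z) * ‖D u‖ ≤ CK * (Λ * c z) * ΛD := by
      have h6 : Λ * c z ^ 2 / c z = Λ * c z := by field_simp
      rw [h6]
      gcongr
    exact h3.trans h5
  · intro v hv
    have h3 := mol_compareX K hr (G := H) (G' := fun p => a + L (T p)) hH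
      ((by fun_prop : Continuous fun p => a + L (T p)).continuousOn) hc hcz hc1
      (e := ε * (τ * c z * ‖L v‖)) (by positivity)
      (by
        intro p hp
        rw [h1 p hp]
        exact hap (T p) (hball p hp) v hv) (D u)
    rw [mol_comp K hTs.continuous a L c] at h3
    have h4 : HasFDerivAt (Mol K T c) (fderiv ℝ (Mol K T c) z) z :=
      ((moll_pos K hTs.continuous.continuousOn hc.smooth hc.le (fun z hz => hc.zero z hz.le)
        hcz).differentiableAt (by simp)).hasFDerivAt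
    have h5 : HasFDerivAt (fun z => a + L (Mol K T c z)) (L.comp (fderiv ℝ (Mol K T c) z)) z :=
      (L.hasFDerivAt.comp z h4).const_add a
    rw [h5.fderiv, ← hCK] at h3
    rw [← hCK]
    refine h3.trans ?_
    have h6 : ε * (τ * c z * ‖L v‖) / c z = ε * τ * ‖L v‖ := by field_simp
    rw [h6]
    calc CK * (ε * τ * ‖L v‖) * ‖D u‖ ≤ CK * (ε * τ * ‖L v‖) * ΛD := by gcongr
      _ = _ := by ring

/-- the derivative of the retraction does not vanish on the derivative of the smoothed map -/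
theorem proj_neX {GA : E n → E d} {y u'' : E n} {a : E d} {L : E n →L[ℝ] E d}
    {ε r θ ξ κ : ℝ} (hr : 0 < r) (hu : 1 - κ ≤ ‖u''‖) (hκ : κ < 1) (hap : Apx GA ε y r a L)
    (hpos : ∀ v, ‖v‖ = 1 → 0 < ‖L v‖)
    {D D' : E d →L[ℝ] E d} {V : E d} (hV : ∀ v, ‖v‖ = 1 → ‖V - L u''‖ ≤ θ * ‖L v‖)
    (hD : ‖D - ContinuousLinearMap.id ℝ (E d)‖ ≤ 1) (hD1 : ∀ v, ‖D v‖ ≤ ‖v‖)
    (hDD : ‖D' - D‖ ≤ ξ)
    (hsec : ∀ v, ‖v‖ = 1 → ‖(D - ContinuousLinearMap.id ℝ (E d)) (GA (y + r • v) - GA (y - r • v))‖ ≤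
      ξ * ‖GA (y + r • v) - GA (y - r • v)‖) (hξ : 0 ≤ ξ)
    (hnum : ξ * (2 + ε + θ / (1 - κ)) + (ε + θ / (1 - κ)) < 1) : D' V ≠ 0 := by
  intro h0
  obtain ⟨Q, hQ⟩ : ∃ Q, Q = D - ContinuousLinearMap.id ℝ (E d) := ⟨_, rfl⟩
  rw [← hQ] at hD hsec
  have hκ1 : 0 < 1 - κ := by linarith
  have hun : 0 < ‖u''‖ := lt_of_lt_of_le hκ1 hu
  -- the direction
  obtain ⟨v, hv⟩ : ∃ v, v = ‖u''‖⁻¹ • u'' := ⟨_, rfl⟩
  have hvn : ‖v‖ = 1 := by
    rw [hv, norm_smul, norm_inv, norm_norm, inv_mul_cancel₀ hun.ne']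
  have hvu : u'' = ‖u''‖ • v := by rw [hv, smul_smul, mul_inv_cancel₀ hun.ne', one_smul]
  obtain ⟨W, hW⟩ : ∃ W, W = ‖u''‖⁻¹ • V := ⟨_, rfl⟩
  have hLv := hpos v hvn
  have hθ0 : 0 ≤ θ := by
    have h1 := (norm_nonneg _).trans (hV v hvn)
    by_contra h2
    push Not at h2
    nlinarith
  obtain ⟨θ', hθ'⟩ : ∃ θ', θ' = θ / (1 - κ) := ⟨_, rfl⟩
  rw [← hθ'] at hnum
  have hθ'0 : 0 ≤ θ' := by rw [hθ']; positivity
  have hWv : ‖W - L v‖ ≤ θ' * ‖L v‖ := by
    have h1 : W - L v = ‖u''‖⁻¹ • (V - L u'') := by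
      rw [hW, hv, map_smul, smul_sub]
    rw [h1, norm_smul, norm_inv, norm_norm]
    have h2 := hV v hvn
    calc ‖u''‖⁻¹ * ‖V - L u''‖ ≤ (1 - κ)⁻¹ * (θ * ‖L v‖) := by
          apply mul_le_mul _ h2 (norm_nonneg _) (by positivity)
          exact inv_anti₀ hκ1 hu
      _ = θ' * ‖L v‖ := by rw [hθ']; ring
  have hW0 : D' W = 0 := by rw [hW, map_smul, h0, smul_zero]
  -- the secant
  have hε0 : 0 ≤ ε := by
    have h1 := (norm_nonneg _).trans (hap y (by rw [sub_self, norm_zero]; exact hr.le) v hvn)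
    by_contra h2
    push Not at h2
    have : 0 < r * ‖L v‖ := by positivity
    nlinarith
  have hru : ‖r • v‖ = r := by rw [norm_smul, hvn, mul_one, Real.norm_of_nonneg hr.le]
  obtain ⟨S, hS⟩ : ∃ S, S = GA (y + r • v) - GA (y - r • v) := ⟨_, rfl⟩
  have hsec' := hsec v hvn
  rw [← hS] at hsec'
  have s1 : ‖S - (2 * r) • L v‖ ≤ 2 * r * (ε * ‖L v‖) := by
    have h1 := hap (y + r • v) (by rw [add_sub_cancel_left, hru]) v hvn
    have h2 := hap (y - r • v) (by
      have : y - r • v - y = -(r • v) := by abel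
      rw [this, norm_neg, hru]) v hvn
    have h3 : S - (2 * r) • L v =
        (GA (y + r • v) - (a + L (y + r • v))) - (GA (y - r • v) - (a + L (y - r • v))) := by
      rw [hS, map_add, map_sub, map_smul]
      module
    rw [h3]
    refine (norm_sub_le _ _).trans ?_
    linarith
  have hrL : ‖(2 * r) • L v‖ = 2 * r * ‖L v‖ := by
    rw [norm_smul, Real.norm_of_nonneg (by positivity)]
  have s2 : ‖S‖ ≤ 2 * r * ((1 + ε) * ‖L v‖) := by
    have h3 := norm_add_le (S - (2 * r) • L v) ((2 * r) • L v)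
    rw [sub_add_cancel, hrL] at h3
    linarith
  have s3 : 2 * r * ‖Q (L v)‖ ≤ 2 * r * ((ξ * (1 + ε) + ε) * ‖L v‖) := by
    have h1 : (2 * r) • Q (L v) = Q S - Q (S - (2 * r) • L v) := by
      rw [map_sub Q S ((2 * r) • L v), map_smul]
      abel
    have h2 : ‖(2 * r) • Q (L v)‖ = 2 * r * ‖Q (L v)‖ := by
      rw [norm_smul, Real.norm_of_nonneg (by positivity)]
    rw [← h2, h1]
    refine (norm_sub_le _ _).trans ?_
    have h3 : ‖Q (S - (2 * r) • L v)‖ ≤ 1 * (2 * r * (ε * ‖L v‖)) :=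
      (Q.le_of_opNorm_le hD _).trans (mul_le_mul_of_nonneg_left s1 zero_le_one)
    have h4 : ξ * ‖S‖ ≤ ξ * (2 * r * ((1 + ε) * ‖L v‖)) := mul_le_mul_of_nonneg_left s2 hξ
    linarith
  have s4 : ‖Q (L v)‖ ≤ (ξ * (1 + ε) + ε) * ‖L v‖ :=
    le_of_mul_le_mul_left s3 (by positivity)
  -- the identity
  have h1 : L v = -((D' - D) W) - Q (L v) - D (W - L v) := by
    rw [hQ]
    simp [hW0]
  have hWn : ‖W‖ ≤ (1 + θ') * ‖L v‖ := by
    have h2 := norm_add_le (W - L v) (L v)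
    rw [sub_add_cancel] at h2
    linarith
  have h2 : ‖L v‖ ≤ ξ * ((1 + θ') * ‖L v‖) + (ξ * (1 + ε) + ε) * ‖L v‖ + θ' * ‖L v‖ := by
    calc ‖L v‖ = ‖-((D' - D) W) - Q (L v) - D (W - L v)‖ := by rw [← h1]
      _ ≤ ‖-((D' - D) W) - Q (L v)‖ + ‖D (W - L v)‖ := norm_sub_le _ _
      _ ≤ (‖-((D' - D) W)‖ + ‖Q (L v)‖) + ‖D (W - L v)‖ := by
          gcongr
          exact norm_sub_le _ _
      _ ≤ _ := by
          rw [norm_neg]
          have h3 : ‖(D' - D) W‖ ≤ ξ * ((1 + θ') * ‖L v‖) :=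
            ((D' - D).le_of_opNorm_le hDD _).trans (mul_le_mul_of_nonneg_left hWn hξ)
          have h4 := (hD1 (W - L v)).trans hWv
          linarith
  have h3 : ξ * ((1 + θ') * ‖L v‖) + (ξ * (1 + ε) + ε) * ‖L v‖ + θ' * ‖L v‖ =
      (ξ * (2 + ε + θ') + (ε + θ')) * ‖L v‖ := by ring
  rw [h3] at h2
  have h4 := mul_lt_mul_of_pos_right hnum hLv
  rw [one_mul] at h4
  exact absurd h2 (not_le.2 h4)

end Pool.Agent.U498.AC
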