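import Pool.Agent.U498.AC.Glob
import Pool.Agent.U211.BLV.Deg

/-!
# Homeomorphisms of closed manifolds which are close to affine maps at small scales
-/

set_option autoImplicit false
set_option linter.unusedSectionVars false

open Set Filter Topology Metric Function MeasureTheory
open scoped Manifold ContDiff

noncomputable section

namespace Pool.Agent.U498.AC

open Pool.Agent.Y522 Pool.Agent.U211.BLV
open Pool.Agent.U211.BL hiding Mol LL LL_apply moll_congr moll_const moll_cont moll_conv moll_pos moll_joint moll_null mollS k_smul_integrable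

variable {n m d : ℕ} {X Y : Type} [TopologicalSpace X] [ChartedSpace (E n) X] [T2Space X]
  [IsManifold (𝓡 n) ∞ X] [CompactSpace X]

/-- extension of a function on the manifold -/
theorem exists_H {ι : X → E m} {πM : E m → X} (hTM : Tub n ι πM) {F : X → E d}
    (hF : Continuous F) :
    ∃ H : E m → E d, Continuous H ∧ ∀ x, ∀ᶠ p in 𝓝 (ι x), H p = F (πM p) := by
  obtain ⟨τ, hτ0, hτ⟩ := PP_unif hTM (ξ := 1) one_pos
  have hιc : Continuous ι := hTM.smooth.continuous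
  have hrc : IsCompact (range ι) := isCompact_range hιc
  obtain ⟨S, hS⟩ : ∃ S, S = cthickening τ (range ι) := ⟨_, rfl⟩
  have hSc : IsClosed S := by rw [hS]; exact isClosed_cthickening
  have hmem : ∀ p ∈ S, ContMDiffAt (𝓡 m) (𝓡 n) ∞ πM p := by
    intro p hp
    rw [hS, hrc.cthickening_eq_biUnion_closedBall hτ0.le, mem_iUnion₂] at hp
    obtain ⟨_, ⟨y, rfl⟩, hy⟩ := hp
    rw [mem_closedBall, dist_eq_norm] at hy
    exact (hτ y p hy).1
  have hcont : ContinuousOn (fun p => F (πM p)) S := fun p hp =>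
    (hF.continuousAt.comp (hmem p hp).continuousAt).continuousWithinAt
  obtain ⟨H, hH⟩ := ContinuousMap.exists_restrict_eq hSc
    (⟨S.domRestrict fun p => F (πM p), hcont.domRestrict⟩ : C(S, E d))
  refine ⟨H, H.continuous, fun x => ?_⟩
  have h1 : closedBall (ι x) τ ∈ 𝓝 (ι x) := closedBall_mem_nhds _ hτ0
  filter_upwards [h1] with p hp
  have hpS : p ∈ S := by
    rw [hS, hrc.cthickening_eq_biUnion_closedBall hτ0.le, mem_iUnion₂]
    exact ⟨ι x, mem_range_self x, hp⟩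
  exact congrArg (fun f : C(S, E d) => f ⟨p, hpS⟩) hH

/-- cutoff functions -/
theorem exists_cut {ι : X → E m} (hιc : Continuous ι) (hinj : Injective ι)
    (hι1 : ∀ x, ‖ι x‖ < 1) {S U : Set X} (hS : IsCompact S) (hU : IsOpen U) (hSU : S ⊆ U) :
    ∃ χ : E m → ℝ, Cut χ ∧ (∀ x, x ∉ U → χ (ι x) = 0) ∧
      ∀ x ∈ S, ∀ᶠ p in 𝓝 (ι x), χ p = 1 := by
  have hK0 : IsClosed (ι '' Uᶜ ∪ {p : E m | 1 ≤ ‖p‖}) :=
    ((hU.isClosed_compl.isCompact.image hιc).isClosed).union
      (isClosed_le continuous_const continuous_norm)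
  have hsub : ι '' S ⊆ (ι '' Uᶜ ∪ {p : E m | 1 ≤ ‖p‖})ᶜ := by
    rintro _ ⟨x, hx, rfl⟩
    rintro (⟨y, hy, hxy⟩ | h)
    · exact hy (by rw [hinj hxy]; exact hSU hx)
    · exact absurd (hι1 x) (not_lt.2 h)
  obtain ⟨δ, hδ, hsub2⟩ := (hS.image hιc).exists_cthickening_subset_open hK0.isOpen_compl hsub
  obtain ⟨f, f0, f1, f01⟩ := exists_contMDiffMap_zero_one_of_isClosed (n := ⊤) (𝓡 m) hK0
    (isClosed_cthickening (δ := δ) (E := ι '' S)) (disjoint_left.2 fun p hp hp2 => (hsub2 hp2) hp)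
  refine ⟨f, ⟨contMDiff_iff_contDiff.1 f.contMDiff, fun z => (f01 z).1, fun z => (f01 z).2,
    fun z hz => f0 (Or.inr hz)⟩, fun x hx => f0 (Or.inl ⟨x, hx, rfl⟩), fun x hx => ?_⟩
  have h1 : closedBall (ι x) δ ∈ 𝓝 (ι x) := closedBall_mem_nhds _ hδ
  filter_upwards [h1] with p hp
  exact f1 (mem_cthickening_of_dist_le p (ι x) δ _ (mem_image_of_mem _ hx)
    (by rwa [mem_closedBall] at hp))

variable [TopologicalSpace Y] [ChartedSpace (E n) Y] [IsManifold (𝓡 n) ∞ Y]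
  [CompactSpace Y] [T2Space Y]

omit [T2Space X] [CompactSpace X] in
/-- a parametrization near a point -/
theorem exists_param (x : X) : ∃ A : E n → X, A 0 = x ∧ LD n A 0 := by
  refine ⟨fun z => (chartAt (E n) x).symm (z + chartAt (E n) x x), ?_, ?_⟩
  · simp only [zero_add]
    exact (chartAt (E n) x).left_inv (mem_chart_source (E n) x)
  · have h1 : LD n (fun z : E n => z + chartAt (E n) x x) 0 := LD_add_const _ 0
    refine LD.comp_fun (g := (chartAt (E n) x).symm) (f := fun z : E n => z + chartAt (E n) x x)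
      ?_ h1
    rw [zero_add]
    exact chart_symm_LD x

/-- the smoothed map near a point -/
theorem local_pt {r₀ : ℝ} (K : Ker m r₀) (hr : 0 < r₀) {ι : X → E m} {πM : E m → X}
    (hTM : Tub n ι πM) (hnM : ∀ p y, ‖p - ι (πM p)‖ ≤ ‖p - ι y‖)
    (hι1 : ∀ x, ‖ι x‖ ≤ 1)
    {e : Y → E d} {π : E d → Y} (hT : Tub n e π) (hn : ∀ p y, ‖p - e (π p)‖ ≤ ‖p - e y‖)
    {g : X → Y} (hg : Continuous g)
    (hgi : Injective g) {H : E m → E d} (hH : ContinuousOn H (closedBall 0 2))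
    (hHn : ∀ x, ∀ᶠ p in 𝓝 (ι x), H p = e (g (πM p))) {χ : E m → ℝ} (hχ : Cut χ)
    {R : Set ℝ} {lam θ c : ℝ} (hlam : 0 < lam) (hθ : 0 < θ) (hθ1 : θ < 1) (hc0 : 0 ≤ c)
    (hc : c * (1 + Real.sqrt m / r₀ * θ⁻¹) < 1) {x : X}
    (hx : LD n g x ∨ AAat n (fun x => e (g x)) x ∨
      (SAat n ι lam R c (fun x => e (g x)) x ∧ ∀ᶠ p in 𝓝 (ι x), χ p = 1)) :
    ∃ (A : E n → X) (s : ℝ), A 0 = x ∧ Box A ∧ 0 < s ∧ ∀ r ∈ R, 0 < r → r ≤ s → ∀ y : E n,
      ‖y‖ ≤ s → 0 < χ (ι (A y)) →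
      LD n (fun x => π (Mol K H (fun z => (lam * θ * r) * χ z) (ι x))) (A y) := by
  have hq0 : 0 ≤ Real.sqrt m / r₀ := by positivity
  by_cases hx' : ∃ A : E n → X, A 0 = x ∧ Box A ∧ AAc (fun p => e (g (A p)))
  · -- all small scales
    obtain ⟨A, hA0, hA, hAA⟩ := hx'
    obtain ⟨D₀, hD₀⟩ : ∃ D₀, D₀ = ‖fderiv ℝ (fun w => ι (A w)) 0‖ := ⟨_, rfl⟩
    obtain ⟨S₀, hS₀⟩ : ∃ S₀, S₀ = ‖fderiv ℝ (tau πM A) (ι (A 0))‖ := ⟨_, rfl⟩
    have hD₀0 : 0 ≤ D₀ := by rw [hD₀]; exact norm_nonneg _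
    have hS₀0 : 0 ≤ S₀ := by rw [hS₀]; exact norm_nonneg _
    obtain ⟨τ, hτ⟩ : ∃ τ, τ = S₀ + 1 := ⟨_, rfl⟩
    have hτ0 : 0 < τ := by rw [hτ]; linarith
    obtain ⟨c₁, hc₁⟩ : ∃ c₁, c₁ = (2 * (1 + Real.sqrt m / r₀ * (τ * D₀)))⁻¹ := ⟨_, rfl⟩
    have hpos : 0 < 1 + Real.sqrt m / r₀ * (τ * D₀) := by positivity
    have hc₁0 : 0 < c₁ := by rw [hc₁]; positivity
    obtain ⟨s₁, hs₁, -, hcore⟩ := local_coreX K hr hTM hι1 hT hn hg hgi hH hHn hχ hA
      (c₁ := c₁) (τ := τ) hc₁0.le (by rw [← hS₀, hτ]; linarith) (by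
        rw [← hD₀, hc₁]
        have h1 : (2 * (1 + Real.sqrt m / r₀ * (τ * D₀)))⁻¹ *
            (1 + Real.sqrt m / r₀ * (τ * D₀)) = 1 / 2 := by
          field_simp
        rw [h1]
        norm_num)
    obtain ⟨δ₁, hδ₁, hex⟩ := hAA c₁ hc₁0
    have hlt : 0 < lam * θ := by positivity
    obtain ⟨s, ⟨⟨e1, e2⟩, e3⟩, hs⟩ := (((small (lam * θ) (D := s₁) hs₁).and
      (small (τ * (lam * θ)) (D := δ₁) hδ₁)).and (small 1 (D := min s₁ δ₁)
        (lt_min hs₁ hδ₁))).and self_mem_nhdsWithin |>.exists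
    have hs0 : 0 < s := hs
    rw [mul_one] at e3
    have e4 := e3.trans_le (min_le_left _ _)
    have e5 := e3.trans_le (min_le_right _ _)
    refine ⟨A, s, hA0, hA, hs0, fun r _ hr0 hrs y hy hyχ => ?_⟩
    have hδs : lam * θ * r ≤ s * (lam * θ) := by nlinarith
    have hδ0 : 0 < lam * θ * r := by positivity
    have hχ1 := hχ.le (ι (A y))
    apply hcore (lam * θ * r) hδ0 (hδs.trans e1.le) y (hy.trans e4.le) hyχ
    obtain ⟨a, L, h⟩ := hex y (τ * (lam * θ * r * χ (ι (A y)))) (hy.trans e5.le)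
      (by positivity) (by
        calc τ * (lam * θ * r * χ (ι (A y))) ≤ τ * (s * (lam * θ) * 1) := by gcongr
          _ = s * (τ * (lam * θ)) := by ring
          _ ≤ δ₁ := e2.le)
    exact ⟨a, L, h⟩
  · -- the scales in `R`
    have hS : SAat n ι lam R c (fun x => e (g x)) x ∧ ∀ᶠ p in 𝓝 (ι x), χ p = 1 := by
      rcases hx with h | h | h
      · exfalso
        apply hx'
        obtain ⟨A, hA0, hAd⟩ := exists_param (n := n) x
        obtain ⟨σ, hσ, hσ1, hB⟩ := exists_box0 hAd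
        have hB0 : A (σ • (0 : E n)) = x := by rw [smul_zero]; exact hA0
        refine ⟨fun z => A (σ • z), hB0, hB, ?_⟩
        obtain ⟨h1, h2⟩ := good_box hT (g := g) hB (by rw [hB0]; exact h)
        exact AAc_of_smooth h1 h2
      · exfalso
        apply hx'
        obtain ⟨A, hA0, hAd, hAA⟩ := h
        obtain ⟨σ, hσ, hσ1, hB⟩ := exists_box0 hAd
        exact ⟨fun z => A (σ • z), by simp only [smul_zero]; exact hA0, hB, hAA.scale hσ hσ1⟩
      · exact h
    obtain ⟨⟨A, hA0, hAd, hiso, hSA⟩, hχx⟩ := hS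
    obtain ⟨σ, hσ, hσ1, hB⟩ := exists_box0 hAd
    obtain ⟨B, hBd⟩ : ∃ B : E n → X, B = fun z => A (σ • z) := ⟨_, rfl⟩
    have hB0 : B 0 = x := by rw [hBd]; simp only [smul_zero]; exact hA0
    rw [← hBd] at hB
    have hιA : HasFDerivAt (fun w => ι (A w)) (fderiv ℝ (fun w => ι (A w)) 0) 0 := by
      have h1 : ContDiffAt ℝ ∞ (fun w => ι (A w)) 0 :=
        contMDiffAt_iff_contDiffAt.1 ((hTM.smooth (A 0)).comp 0 hAd.contMDiffAt)
      exact (h1.differentiableAt (by simp)).hasFDerivAt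
    have hder : HasFDerivAt (fun w => ι (B w)) ((fderiv ℝ (fun w => ι (A w)) 0).comp
        (σ • ContinuousLinearMap.id ℝ (E n))) 0 := by
      have h1 : HasFDerivAt (fun z : E n => σ • z) (σ • ContinuousLinearMap.id ℝ (E n)) 0 :=
        (hasFDerivAt_id (0 : E n)).const_smul σ
      have h2 : HasFDerivAt (fun w => ι (A w)) (fderiv ℝ (fun w => ι (A w)) 0)
          (σ • (0 : E n)) := by
        rw [smul_zero]
        exact hιA
      rw [hBd]
      exact HasFDerivAt.comp (g := fun w => ι (A w)) (f := fun z : E n => σ • z) 0 h2 h1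
    have hn1 : ∀ v, ‖fderiv ℝ (fun w => ι (B w)) 0 v‖ = lam * σ * ‖v‖ := by
      intro v
      rw [hder.fderiv, ContinuousLinearMap.comp_apply, hiso, _root_.smul_apply,
        ContinuousLinearMap.id_apply, norm_smul, Real.norm_of_nonneg hσ.le]
      ring
    have hls : 0 < lam * σ := by positivity
    have hS0 : ‖fderiv ℝ (tau πM B) (ι (B 0))‖ ≤ (lam * σ)⁻¹ :=
      S0_le hTM hnM hB hls fun v => (hn1 v).ge
    have hD0 : ‖fderiv ℝ (fun w => ι (B w)) 0‖ ≤ lam * σ :=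
      ContinuousLinearMap.opNorm_le_bound _ hls.le fun v => (hn1 v).le
    obtain ⟨τ, hτ⟩ : ∃ τ, τ = (lam * σ * θ)⁻¹ := ⟨_, rfl⟩
    have hτ0 : 0 < τ := by rw [hτ]; positivity
    obtain ⟨s₁, hs₁, -, hcore⟩ := local_coreX K hr hTM hι1 hT hn hg hgi hH hHn hχ hB
      (c₁ := c) (τ := τ) hc0 (by
        refine hS0.trans_lt ?_
        rw [hτ]
        apply inv_strictAnti₀ (by positivity)
        nlinarith) (by
        refine lt_of_le_of_lt ?_ hc
        apply mul_le_mul_of_nonneg_left _ hc0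
        have h1 : τ * ‖fderiv ℝ (fun w => ι (B w)) 0‖ ≤ θ⁻¹ := by
          calc τ * ‖fderiv ℝ (fun w => ι (B w)) 0‖ ≤ τ * (lam * σ) :=
                mul_le_mul_of_nonneg_left hD0 hτ0.le
            _ = θ⁻¹ := by rw [hτ]; field_simp
        have h2 := mul_le_mul_of_nonneg_left h1 hq0
        linarith)
    obtain ⟨s₂, hs₂, hex⟩ := hSA.scale hσ hσ1
    -- the cutoff is one near the point
    have hχB : ∀ᶠ y in 𝓝 (0 : E n), χ (ι (B y)) = 1 := by
      have h1 : ContinuousAt (fun w => ι (B w)) 0 := hder.continuousAt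
      have h2 : ∀ᶠ p in 𝓝 (ι (B 0)), χ p = 1 := by rw [hB0]; exact hχx
      exact h1.eventually h2
    obtain ⟨s₃, hs₃, hb3⟩ := Metric.eventually_nhds_iff_ball.1 hχB
    have hlt : 0 < lam * θ := by positivity
    obtain ⟨s, ⟨e1, e3⟩, hs⟩ := ((small (lam * θ) (D := s₁) hs₁).and
      (small 1 (D := min s₁ (min s₂ s₃)) (lt_min hs₁ (lt_min hs₂ hs₃)))).and
        self_mem_nhdsWithin |>.exists
    have hs0 : 0 < s := hs
    rw [mul_one] at e3
    have e4 := e3.trans_le (min_le_left _ _)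
    have e5 := e3.trans_le ((min_le_right _ _).trans (min_le_left _ _))
    have e6 := e3.trans_le ((min_le_right _ _).trans (min_le_right _ _))
    refine ⟨B, s, hB0, hB, hs0, fun r hrR hr0 hrs y hy hyχ => ?_⟩
    have hδs : lam * θ * r ≤ s * (lam * θ) := by nlinarith
    have hδ0 : 0 < lam * θ * r := by positivity
    apply hcore (lam * θ * r) hδ0 (hδs.trans e1.le) y (hy.trans e4.le) hyχ
    have h1 : χ (ι (B y)) = 1 := hb3 y (by rw [mem_ball_zero_iff]; linarith)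
    obtain ⟨a, L, h⟩ := hex y r (hy.trans e5.le) hrR hr0 (hrs.trans e5.le)
    refine ⟨a, L, ?_⟩
    have h2 : τ * (lam * θ * r * χ (ι (B y))) = r / σ := by
      rw [h1, hτ]
      field_simp
    rw [h2, hBd]
    exact h

/-- **Smoothing.** -/
theorem smoothingC {ι : X → E m} {πM : E m → X} (hTM : Tub n ι πM)
    (hnM : ∀ p y, ‖p - ι (πM p)‖ ≤ ‖p - ι y‖) (hinj : Injective ι) (hι1 : ∀ x, ‖ι x‖ < 1)
    {e : Y → E d} {π : E d → Y} (hT : Tub n e π) (hn : ∀ p y, ‖p - e (π p)‖ ≤ ‖p - e y‖)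
    {g : X → Y} (hg : Continuous g) (hgi : Injective g) {R : Set ℝ} {lam c : ℝ} (hlam : 0 < lam)
    (hR : ∀ ε > 0, ∃ r ∈ R, 0 < r ∧ r ≤ ε) (hc0 : 0 ≤ c) (hc : c * (1 + Real.sqrt m) < 1)
    {U : Set X} (hU : IsOpen U) (hgU : ∀ x, x ∉ U → LD n g x)
    (hbad : ∀ x, ¬ LD n g x → AAat n (fun x => e (g x)) x ∨
      SAat n ι lam R c (fun x => e (g x)) x) {ε₀ : ℝ} (hε₀ : 0 < ε₀) :
    ∃ g' : X → Y, (∀ x, x ∉ U → g' x = g x) ∧ (∀ x, LD n g' x) ∧
      ∀ x, ‖e (g' x) - e (g x)‖ ≤ ε₀ := by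
  classical
  -- the numbers
  obtain ⟨θ, hθ0, hθ1, hcθ⟩ : ∃ θ : ℝ, 0 < θ ∧ θ < 1 ∧ c * (1 + Real.sqrt m / θ * θ⁻¹) < 1 := by
    have hcont : ContinuousAt (fun t : ℝ => c * (1 + Real.sqrt m / (1 - t) * (1 - t)⁻¹)) 0 := by
      apply ContinuousAt.mul continuousAt_const
      apply ContinuousAt.add continuousAt_const
      apply ContinuousAt.mul
      · apply ContinuousAt.div continuousAt_const (by fun_prop)
        norm_num
      · apply ContinuousAt.inv₀ (by fun_prop)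
        norm_num
    have h1 : ∀ᶠ t in 𝓝 (0 : ℝ), c * (1 + Real.sqrt m / (1 - t) * (1 - t)⁻¹) < 1 := by
      apply hcont.eventually_lt_const
      show c * (1 + Real.sqrt m / (1 - 0) * (1 - 0)⁻¹) < 1
      simpa using hc
    obtain ⟨t, ⟨h2, h3⟩, h4⟩ := ((h1.filter_mono nhdsWithin_le_nhds).and
      (small 1 (D := 1) one_pos)).and self_mem_nhdsWithin |>.exists
    have h5 : 0 < t := h4
    exact ⟨1 - t, by linarith, by linarith, h2⟩
  obtain ⟨K⟩ := exists_ker m hθ0 hθ1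
  have hF : Continuous fun x => e (g x) := hT.smooth.continuous.comp hg
  have hιc : Continuous ι := hTM.smooth.continuous
  -- the bad set
  have hS : IsCompact {x | ¬ LD n g x} := by
    apply IsClosed.isCompact
    rw [← isOpen_compl_iff, isOpen_iff_mem_nhds]
    intro x hx
    rw [mem_compl_iff, mem_ofPred_eq, not_not] at hx
    filter_upwards [hx.eventually] with y hy hy2
    exact hy2 hy
  have hSU : {x | ¬ LD n g x} ⊆ U := by
    intro x hx
    by_contra h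
    exact hx (hgU x h)
  obtain ⟨χ, hχ, hχ0, hχ1⟩ := exists_cut hιc hinj hι1 hS hU hSU
  obtain ⟨H, hHc, hHn⟩ := exists_H hTM hF
  have hloc : ∀ x : X, ∃ (A : E n → X) (s : ℝ), A 0 = x ∧ Box A ∧ 0 < s ∧ ∀ r ∈ R, 0 < r → r ≤ s →
      ∀ y : E n, ‖y‖ ≤ s → 0 < χ (ι (A y)) →
      LD n (fun x => π (Mol K H (fun z => (lam * θ * r) * χ z) (ι x))) (A y) := by
    intro x
    apply local_pt K hθ0 hTM hnM (fun x => (hι1 x).le) hT hn hg hgi hHc.continuousOn hHn hχ hlam hθ0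
      hθ1 hc0 hcθ
    by_cases hx : LD n g x
    · exact Or.inl hx
    · rcases hbad x hx with h | h
      · exact Or.inr (Or.inl h)
      · exact Or.inr (Or.inr ⟨h, hχ1 x hx⟩)
  choose A s hA0 hA hs hLD using hloc
  have hcov : ∀ x ∈ (univ : Set X), A x '' ball 0 (min (s x) 1) ∈ 𝓝 x := by
    intro x _
    have h2 : LD n (A x) 0 := (hA x).ld 0 (by simp)
    have h3 := h2.image_mem_nhds (ball_mem_nhds (0 : E n) (lt_min (hs x) one_pos))
    rwa [hA0 x] at h3
  obtain ⟨t, -, ht⟩ := isCompact_univ.elim_nhds_subcover (fun x => A x '' ball 0 (min (s x) 1)) hcov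
  obtain ⟨sm, hsm, hsm'⟩ := exists_lower' (fun x : t => s x.1) (fun x => hs _)
  -- uniform continuity
  obtain ⟨η, hη, hηu⟩ : ∃ η : ℝ, 0 < η ∧ ∀ p ∈ closedBall (0 : E m) 2,
      ∀ q ∈ closedBall (0 : E m) 2, ‖p - q‖ ≤ η → ‖H p - H q‖ ≤ ε₀ / 2 := by
    have h1 := (isCompact_closedBall (0 : E m) 2).uniformContinuousOn_of_continuous
      hHc.continuousOn
    rw [Metric.uniformContinuousOn_iff] at h1
    obtain ⟨θ, hθ, h2⟩ := h1 (ε₀ / 2) (by positivity)
    refine ⟨θ / 2, by positivity, fun p hp q hq hpq => ?_⟩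
    have h3 := h2 p hp q hq (by rw [dist_eq_norm]; linarith)
    rw [dist_eq_norm] at h3
    exact h3.le
  -- the scale
  have hlt : 0 < lam * θ := by positivity
  obtain ⟨r, hrR, hr0, hrr⟩ := hR (min sm (min (η / (lam * θ)) (1 / 4 / (lam * θ))))
    (lt_min hsm (lt_min (by positivity) (by positivity)))
  have hr1 : r ≤ sm := hrr.trans (min_le_left _ _)
  have hr2 : lam * θ * r ≤ η := by
    have h1 : r ≤ η / (lam * θ) := hrr.trans ((min_le_right _ _).trans (min_le_left _ _))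
    rw [le_div_iff₀ hlt] at h1
    linarith
  have hr3 : lam * θ * r ≤ 1 / 4 := by
    have h1 : r ≤ 1 / 4 / (lam * θ) := hrr.trans ((min_le_right _ _).trans (min_le_right _ _))
    rw [le_div_iff₀ hlt] at h1
    linarith
  have hδ0 : 0 < lam * θ * r := by positivity
  have hRad : Rad (fun z => (lam * θ * r) * χ z) := hχ.rad hδ0 hr3
  have hval : ∀ x, H (ι x) = e (g x) := by
    intro x
    rw [(hHn x).self_of_nhds, hTM.retr]
  refine ⟨fun x => π (Mol K H (fun z => (lam * θ * r) * χ z) (ι x)), ?_, ?_, ?_⟩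
  · intro x hx
    show π (Mol K H (fun z => (lam * θ * r) * χ z) (ι x)) = g x
    rw [moll_const K (by rw [hχ0 x hx, mul_zero]), hval, hT.retr]
  · intro x
    rcases (hχ.nonneg (ι x)).lt_or_eq with hx | hx
    · have h2 := ht (mem_univ x)
      rw [mem_iUnion₂] at h2
      obtain ⟨x', hx', y, hy, rfl⟩ := h2
      rw [mem_ball_zero_iff] at hy
      exact hLD x' r hrR hr0 (hr1.trans (hsm' ⟨x', hx'⟩)) y (hy.le.trans (min_le_left _ _)) hx
    · have hgood : LD n g x := by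
        by_contra hcon
        have h1 := (hχ1 x hcon).self_of_nhds
        rw [← hx] at h1
        exact zero_ne_one h1
      have h1 := null_LD K hTM hT (g := g) hHc.continuousOn hHn hRad (hA x)
        (by rw [hA0]; exact hgood) (by rw [hA0, ← hx, mul_zero])
      rwa [hA0] at h1
  · intro x
    obtain ⟨p, hp⟩ : ∃ p, p = Mol K H (fun z => (lam * θ * r) * χ z) (ι x) := ⟨_, rfl⟩
    have h1 : ‖p - e (g x)‖ ≤ ε₀ / 2 := by
      rw [hp, ← hval]
      apply mol_close' K hHc.continuousOn hRad ((hι1 x).le.trans (by norm_num))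
      intro q hq
      have h2 := hχ.le (ι x)
      have h3 : ‖q - ι x‖ ≤ lam * θ * r := by
        refine hq.trans ?_
        show lam * θ * r * χ (ι x) ≤ lam * θ * r
        nlinarith
      apply hηu q _ (ι x) _ (h3.trans hr2)
      · rw [mem_closedBall_zero_iff]
        have h4 := norm_add_le (q - ι x) (ι x)
        rw [sub_add_cancel] at h4
        have h5 := hι1 x
        linarith
      · rw [mem_closedBall_zero_iff]
        have h5 := hι1 x
        linarith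
    show ‖e (π (Mol K H (fun z => (lam * θ * r) * χ z) (ι x))) - e (g x)‖ ≤ ε₀
    rw [← hp]
    have h2 := hn p (g x)
    have h3 : e (π p) - e (g x) = (p - e (g x)) - (p - e (π p)) := by abel
    rw [h3]
    refine (norm_sub_le _ _).trans ?_
    linarith

/-- **The main theorem.** -/
theorem closed_mainX [ConnectedSpace X] (ι : X → E m) (hι : ContMDiff (𝓡 n) (𝓡 m) ∞ ι)
    (hιinj : Injective ι)
    (hιimm : ∀ (y : X) (v : E n),
      fderiv ℝ (fun t => ι ((chartAt (E n) y).symm t)) (chartAt (E n) y y) v = 0 → v = 0)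
    (e : Y → E d) (he : ContMDiff (𝓡 n) (𝓡 d) ∞ e) (hinj : Injective e)
    (himm : ∀ (y : Y) (v : E n),
      fderiv ℝ (fun t => e ((chartAt (E n) y).symm t)) (chartAt (E n) y y) v = 0 → v = 0)
    (g : X ≃ₜ Y) {R : Set ℝ} (hR : ∀ ε > 0, ∃ r ∈ R, 0 < r ∧ r ≤ ε) {c : ℝ} (hc0 : 0 ≤ c)
    (hc : c * (1 + Real.sqrt m) < 1) {U : Set X} (hU : IsOpen U)
    (hgU : ∀ x, x ∉ U → LD n g x)
    (hbad : ∀ x, ¬ LD n g x → AAat n (fun x => e (g x)) x ∨
      SAat n ι 1 R c (fun x => e (g x)) x) {ε : ℝ} (hε : 0 < ε) :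
    ∃ Φ : X → Y, Bijective Φ ∧ (∀ x, LD n Φ x) ∧ (∀ x, x ∉ U → Φ x = g x) ∧
      ∀ x, ‖e (Φ x) - e (g x)‖ ≤ ε := by
  have hneX : Nonempty X := inferInstance
  have hneY : Nonempty Y := by
    obtain ⟨x⟩ := hneX
    exact ⟨g x⟩
  obtain ⟨π, hT, hn⟩ := exists_tub_near e he hinj himm
  -- the scaled embedding
  obtain ⟨Bd, hBd⟩ := (isCompact_range hι.continuous).exists_bound_of_continuousOn
    (f := fun p : E m => p) continuousOn_id
  obtain ⟨x₀⟩ := hneX
  have hBd0 : 0 ≤ Bd := (norm_nonneg _).trans (hBd _ (mem_range_self x₀))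
  obtain ⟨lam, hlamd⟩ : ∃ lam, lam = (Bd + 1)⁻¹ := ⟨_, rfl⟩
  have hlam : 0 < lam := by rw [hlamd]; positivity
  obtain ⟨ι', hι'⟩ : ∃ ι' : X → E m, ι' = fun x => lam • ι x := ⟨_, rfl⟩
  have hι's : ContMDiff (𝓡 n) (𝓡 m) ∞ ι' := by
    rw [hι']
    exact (contMDiff_iff_contDiff.2 (contDiff_const_smul lam)).comp hι
  have hι'i : Injective ι' := by
    intro a b hab
    rw [hι'] at hab
    exact hιinj (smul_right_injective _ hlam.ne' hab)
  have hchart : ∀ y : X, HasFDerivAt (fun t => ι ((chartAt (E n) y).symm t))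
      (fderiv ℝ (fun t => ι ((chartAt (E n) y).symm t)) (chartAt (E n) y y))
      (chartAt (E n) y y) := by
    intro y
    have h1 : ContDiffAt ℝ ∞ (fun t => ι ((chartAt (E n) y).symm t)) (chartAt (E n) y y) :=
      contMDiffAt_iff_contDiffAt.1 ((hι _).comp _ (chart_symm_LD y).contMDiffAt)
    exact (h1.differentiableAt (by simp)).hasFDerivAt
  have hι'imm : ∀ (y : X) (v : E n),
      fderiv ℝ (fun t => ι' ((chartAt (E n) y).symm t)) (chartAt (E n) y y) v = 0 → v = 0 := by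
    intro y v hv
    have h1 : HasFDerivAt (fun t => ι' ((chartAt (E n) y).symm t))
        (lam • fderiv ℝ (fun t => ι ((chartAt (E n) y).symm t)) (chartAt (E n) y y))
        (chartAt (E n) y y) := by
      rw [hι']
      exact (hchart y).const_smul lam
    rw [h1.fderiv, _root_.smul_apply, smul_eq_zero] at hv
    exact hιimm y v (hv.resolve_left hlam.ne')
  have hι'1 : ∀ x, ‖ι' x‖ < 1 := by
    intro x
    rw [hι']
    simp only
    rw [norm_smul, Real.norm_of_nonneg hlam.le, hlamd, ← div_eq_inv_mul, div_lt_one (by linarith)]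
    have := hBd _ (mem_range_self x)
    linarith
  obtain ⟨πM, hTM, hnM⟩ := exists_tub_near ι' hι's hι'i hι'imm
  obtain ⟨τ, hτ0, hτ⟩ := PP_unif hT one_pos
  obtain ⟨g', g1, g2, g3⟩ := smoothingC hTM hnM hι'i hι'1 hT hn g.continuous g.injective hlam hR
    hc0 hc hU hgU (fun x hx => by
      rcases hbad x hx with h | ⟨A, hA0, hAd, hiso, hSA⟩
      · exact Or.inl h
      · refine Or.inr ⟨A, hA0, hAd, fun v => ?_, hSA⟩
        have h1 : ContDiffAt ℝ ∞ (fun w => ι (A w)) 0 :=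
          contMDiffAt_iff_contDiffAt.1 ((hι (A 0)).comp 0 hAd.contMDiffAt)
        have h2 : HasFDerivAt (fun w => ι' (A w)) (lam • fderiv ℝ (fun w => ι (A w)) 0) 0 := by
          rw [hι']
          exact ((h1.differentiableAt (by simp)).hasFDerivAt).const_smul lam
        rw [h2.fderiv, _root_.smul_apply, norm_smul, Real.norm_of_nonneg hlam.le, hiso, one_mul])
    (lt_min hε hτ0)
  have hbij : Bijective g' := bij_of_close hT g g2 (fun y p hp => (hτ y p hp).1)
    (fun x => (g3 x).trans (min_le_right _ _))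
  exact ⟨g', hbij, g2, g1, fun x => (g3 x).trans (min_le_left _ _)⟩

end Pool.Agent.U498.AC
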