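import Pool.Agent.U498.AC.Main
import Mathlib.Geometry.Manifold.WhitneyEmbedding

/-!
# The main theorem for asymptotically affine homeomorphisms, without a metric on the source
-/

set_option autoImplicit false
set_option linter.unusedSectionVars false

open Set Filter Topology Metric Function MeasureTheory
open scoped Manifold ContDiff

noncomputable section

namespace Pool.Agent.U498.AC

open Pool.Agent.Y522 Pool.Agent.U211.BLV

variable {n d : ℕ} {X Y : Type} [TopologicalSpace X] [ChartedSpace (E n) X] [T2Space X]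
  [IsManifold (𝓡 n) ∞ X] [CompactSpace X] [TopologicalSpace Y] [ChartedSpace (E n) Y]
  [IsManifold (𝓡 n) ∞ Y] [CompactSpace Y] [T2Space Y]

variable (n X) in
theorem exists_iota : ∃ (m : ℕ) (ι : X → E m), ContMDiff (𝓡 n) (𝓡 m) ∞ ι ∧ Injective ι ∧
    ∀ (y : X) (v : E n),
      fderiv ℝ (fun t => ι ((chartAt (E n) y).symm t)) (chartAt (E n) y y) v = 0 → v = 0 := by
  obtain ⟨m, ι, h1, h2, h3⟩ := exists_embedding_euclidean_of_compact (I := 𝓡 n) (M := X)
  refine ⟨m, ι, h1, h2.injective, fun y v hv => ?_⟩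
  have hc := chart_symm_LD (n := n) y
  have e1 : MDifferentiableAt (𝓡 n) (𝓡 m) ι ((chartAt (E n) y).symm (chartAt (E n) y y)) :=
    (h1 _).mdifferentiableAt (by simp)
  have e2 : MDifferentiableAt (𝓡 n) (𝓡 n) (chartAt (E n) y).symm (chartAt (E n) y y) :=
    hc.mdifferentiableAt
  have e3 := mfderiv_comp (chartAt (E n) y y) e1 e2
  have e4 : mfderiv (𝓡 n) (𝓡 m) (ι ∘ (chartAt (E n) y).symm) (chartAt (E n) y y) =
      fderiv ℝ (fun t => ι ((chartAt (E n) y).symm t)) (chartAt (E n) y y) := by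
    rw [mfderiv_eq_fderiv]
    rfl
  rw [e4] at e3
  rw [e3] at hv
  have h5 := h3 ((chartAt (E n) y).symm (chartAt (E n) y y))
  have h6 : Injective (mfderiv (𝓡 n) (𝓡 n) (chartAt (E n) y).symm (chartAt (E n) y y)) :=
    hc.mfderiv_injective
  have h7 : mfderiv (𝓡 n) (𝓡 m) ι ((chartAt (E n) y).symm (chartAt (E n) y y))
      (mfderiv (𝓡 n) (𝓡 n) (chartAt (E n) y).symm (chartAt (E n) y y) v) = 0 := hv
  have h8 := h5 (h7.trans (map_zero _).symm)
  exact h6 (h8.trans (map_zero _).symm)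

/-- **The main theorem**, all small scales and every `ε`, arbitrary parametrizations. -/
theorem closed_mainA [ConnectedSpace X] (e : Y → E d) (he : ContMDiff (𝓡 n) (𝓡 d) ∞ e)
    (hinj : Injective e)
    (himm : ∀ (y : Y) (v : E n),
      fderiv ℝ (fun t => e ((chartAt (E n) y).symm t)) (chartAt (E n) y y) v = 0 → v = 0)
    (g : X ≃ₜ Y) {U : Set X} (hU : IsOpen U) (hgU : ∀ x, x ∉ U → LD n g x)
    (hbad : ∀ x, ¬ LD n g x → AAat n (fun x => e (g x)) x) {ε : ℝ} (hε : 0 < ε) :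
    ∃ Φ : X → Y, Bijective Φ ∧ (∀ x, LD n Φ x) ∧ (∀ x, x ∉ U → Φ x = g x) ∧
      ∀ x, ‖e (Φ x) - e (g x)‖ ≤ ε := by
  obtain ⟨m, ι, h1, h2, h3⟩ := exists_iota n X
  exact closed_mainX ι h1 h2 h3 e he hinj himm g (R := Ioi 0)
    (fun ε hε => ⟨ε, hε, hε, le_rfl⟩) (c := 0) le_rfl (by rw [zero_mul]; exact one_pos) hU hgU
    (fun x hx => Or.inl (hbad x hx)) hε

end Pool.Agent.U498.AC
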